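import Pool.Agent.X303.SC.Trees

/-! The classification of the sequences. -/

set_option autoImplicit false

namespace Pool.Agent.X303.SC

open Polynomial

/-- the pairing of two lists with a gap of length `g` between them -/
def cr (c : ℕ → ℤ) : List ℤ → ℕ → List ℤ → ℤ
  | [], _, _ => 0
  | x :: A, g, L => x * lin c (A.length + 1 + g) L + cr c A g L

theorem bil_cr (c : ℕ → ℤ) : ∀ (A : List ℤ) (p g : ℕ) (L : List ℤ),
    bil c (ofL p A) (ofL (p + A.length + g) L) = cr c A g L
  | [], p, g, L => by rw [ofL, cr, bil_zero_left]
  | x :: A, p, g, L => by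
    rw [ofL, cr, bil_add_left, List.length_cons,
      show p + (A.length + 1) + g = p + (A.length + 1 + g) by ring, bil_lin,
      show p + (A.length + 1 + g) = p + 1 + A.length + g by ring, bil_cr]

theorem two_pos {c : ℕ → ℤ} (h : Pos c) {x : ℤ} (hx : x ≠ 0) (A : List ℤ) (g : ℕ) (L : List ℤ) :
    0 < Qd c (x :: A) + 2 * cr c (x :: A) g L + Qd c L := by
  have h1 : bil c (ofL 0 (x :: A) + ofL (0 + (x :: A).length + g) L)
      (ofL 0 (x :: A) + ofL (0 + (x :: A).length + g) L) =
      Qd c (x :: A) + 2 * cr c (x :: A) g L + Qd c L := by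
    rw [bil_add_sq, bil_ofL, bil_ofL, bil_cr]
  rw [← h1]
  refine h _ fun h0 => hx ?_
  have h1 := congrArg (fun P : ℤ[X] => P.coeff 0) h0
  simp only [ofL, coeff_add, coeff_monomial, coeff_zero, if_true] at h1
  rw [ofL_coeff A (0 + 1) 0 (by omega), ofL_coeff L _ 0 (by simp), add_zero, add_zero] at h1
  exact h1

theorem lin_ones (c : ℕ → ℤ) (n k : ℕ) :
    lin c k (List.replicate n 1) = ∑ j ∈ Finset.range n, c (k + j) := by
  induction n generalizing k with
  | zero => rfl
  | succ n ih =>
    rw [List.replicate_succ, lin, ih, Finset.sum_range_succ', one_mul, add_comm]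
    congr 1
    refine Finset.sum_congr rfl fun j _ => ?_
    congr 1
    ring

/-- type `A` -/
theorem typeA {c : ℕ → ℤ} (h : Pos c) (h0 : c 0 = 2) (h1 : c 1 = -1) (h2 : c 2 = 0) :
    ∀ k, 2 ≤ k → c k = 0 := by
  have hb := bound h h0
  intro k
  induction k using Nat.strong_induction_on with
  | _ n ih =>
  intro hn
  rcases eq_or_lt_of_le hn with h3 | h3
  · rw [← h3]; exact h2
  -- now `3 ≤ n`
  have ih' : ∀ j, 2 ≤ j → j < n → c j = 0 := fun j hj hjn => ih j hjn hj
  rcases hb n (by omega) with h4 | h4 | h4
  · -- all ones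
    exfalso
    have hQ : ∀ m, m + 1 ≤ n → Qd c (List.replicate (m + 1) 1) = 2 := by
      intro m
      induction m with
      | zero =>
        intro _
        simp [Qd, lin, h0]
      | succ m ihm =>
        intro hm
        rw [List.replicate_succ, Qd, ihm (by omega), lin_ones, Finset.sum_range_succ', h0]
        have : ∑ j ∈ Finset.range m, c (1 + (j + 1)) = 0 := by
          refine Finset.sum_eq_zero fun j hj => ih' _ (by omega) ?_
          have := Finset.mem_range.1 hj
          omega
        rw [this, add_zero, h1]
        norm_num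
    have h5 := Qd_pos h (x := 1) one_ne_zero (List.replicate n 1)
    obtain ⟨m, rfl⟩ : ∃ m, n = m + 2 := ⟨n - 2, by omega⟩
    rw [Qd, hQ (m + 1) (by omega), lin_ones, Finset.sum_range_succ', Finset.sum_range_succ, h0] at h5
    have : ∑ j ∈ Finset.range m, c (1 + (j + 1)) = 0 := by
      refine Finset.sum_eq_zero fun j hj => ih' _ (by omega) ?_
      have := Finset.mem_range.1 hj
      omega
    rw [this, add_zero, h1, show 1 + (m + 1) = m + 2 by ring, h4] at h5
    norm_num at h5
  · exact h4
  · exfalso
    rcases hb (n + 1) (by omega) with h5 | h5 | h5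
    · -- the long ones
      rcases Nat.lt_or_ge n 7 with h6 | h6
      · have h7 : n = 3 ∨ n = 4 ∨ n = 5 ∨ n = 6 := by omega
        rcases h7 with rfl | rfl | rfl | rfl
        · refine check_sound h hb certA3 _ (by decide) (fun k hk => ?_) checkA3
          have : k < 5 := hk
          interval_cases k
          exacts [h0, h1, h2, h4, h5]
        · refine check_sound h hb certA4 _ (by decide) (fun k hk => ?_) checkA4
          have : k < 6 := hk
          interval_cases k
          exacts [h0, h1, h2, ih' 3 (by omega) (by omega), h4, h5]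
        · refine check_sound h hb certA5 _ (by decide) (fun k hk => ?_) checkA5
          have : k < 7 := hk
          interval_cases k
          exacts [h0, h1, h2, ih' 3 (by omega) (by omega), ih' 4 (by omega) (by omega), h4, h5]
        · refine check_sound h hb certA6 _ (by decide) (fun k hk => ?_) checkA6
          have : k < 8 := hk
          interval_cases k
          exacts [h0, h1, h2, ih' 3 (by omega) (by omega), ih' 4 (by omega) (by omega),
            ih' 5 (by omega) (by omega), h4, h5]
      · obtain ⟨m, rfl⟩ : ∃ m, n = m + 7 := ⟨n - 7, by omega⟩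
        have e2 := ih' (m + 2) (by omega) (by omega)
        have e3 := ih' (m + 3) (by omega) (by omega)
        have e4 := ih' (m + 4) (by omega) (by omega)
        have e5 := ih' (m + 5) (by omega) (by omega)
        have e6 := ih' (m + 6) (by omega) (by omega)
        have f3 := ih' 3 (by omega) (by omega)
        have hp := two_pos h (x := -2) (by norm_num) [-3, -2, -1] (m + 1) [1, 2, 3, 2]
        simp only [Qd, lin, cr, List.length_cons, List.length_nil] at hp
        rw [show 0 + 1 + 1 + 1 + 1 + (m + 1) = m + 5 by ring,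
          show 0 + 1 + 1 + 1 + (m + 1) = m + 4 by ring,
          show 0 + 1 + 1 + (m + 1) = m + 3 by ring,
          show 0 + 1 + (m + 1) = m + 2 by ring] at hp
        simp only [add_assoc] at hp
        norm_num at hp
        rw [h5, h4] at hp
        rw [e2, e3, e4, e5, e6, h0, h1, h2, f3] at hp
        norm_num at hp
    · have hp := two_pos h (x := 1) (by norm_num) [1] (n - 2) [-1, -1]
      simp only [Qd, lin, cr, List.length_cons, List.length_nil] at hp
      rw [show 0 + 1 + 1 + (n - 2) = n by omega, show 0 + 1 + (n - 2) = n - 1 by omega,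
        show n - 1 + 1 = n by omega, ih' (n - 1) (by omega) (by omega), h4, h5, h0, h1] at hp
      norm_num at hp
    · have hp := two_pos h (x := 1) (by norm_num) [1] (n - 2) [-1, -1]
      simp only [Qd, lin, cr, List.length_cons, List.length_nil] at hp
      rw [show 0 + 1 + 1 + (n - 2) = n by omega, show 0 + 1 + (n - 2) = n - 1 by omega,
        show n - 1 + 1 = n by omega, ih' (n - 1) (by omega) (by omega), h4, h5, h0, h1] at hp
      norm_num at hp

/-- type `D`, all signs positive -/
theorem typeD' {c : ℕ → ℤ} (h : Pos c) (h0 : c 0 = 2) (h1 : c 1 = 1) (h2 : c 2 = 1) :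
    ∀ k, 1 ≤ k → c k = 1 := by
  have hb := bound h h0
  intro k
  induction k using Nat.strong_induction_on with
  | _ n ih =>
  intro hn
  rcases eq_or_lt_of_le hn with h3 | h3
  · rw [← h3]; exact h1
  rcases eq_or_lt_of_le (show 2 ≤ n from h3) with h3 | h3
  · rw [← h3]; exact h2
  have ih' : ∀ j, 1 ≤ j → j < n → c j = 1 := fun j hj hjn => ih j hjn hj
  rcases hb n (by omega) with h4 | h4 | h4
  · exfalso
    have hp := two_pos h (x := 1) (by norm_num) [-1] (n - 2) [1]
    simp only [Qd, lin, cr, List.length_cons, List.length_nil] at hp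
    rw [show 0 + 1 + 1 + (n - 2) = n by omega, show 0 + 1 + (n - 2) = n - 1 by omega,
      ih' (n - 1) (by omega) (by omega), h4, h0, h1] at hp
    norm_num at hp
  · exfalso
    rcases hb (n + 1) (by omega) with h5 | h5 | h5
    · have hp := two_pos h (x := -1) (by norm_num) [0, 1] (n - 2) [-1]
      simp only [Qd, lin, cr, List.length_cons, List.length_nil] at hp
      rw [show 0 + 1 + 1 + 1 + (n - 2) = n + 1 by omega, show 0 + 1 + 1 + (n - 2) = n by omega,
        show 0 + 1 + (n - 2) = n - 1 by omega,
        ih' (n - 1) (by omega) (by omega), h4, h5, h0, h1] at hp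
      norm_num at hp
      rw [h2] at hp
      norm_num at hp
    · rcases Nat.lt_or_ge n 7 with h6 | h6
      · have h7 : n = 3 ∨ n = 4 ∨ n = 5 ∨ n = 6 := by omega
        rcases h7 with rfl | rfl | rfl | rfl
        · refine check_sound h hb certD3 _ (by decide) (fun k hk => ?_) checkD3
          have : k < 4 := hk
          interval_cases k
          exacts [h0, h1, h2, h4]
        · refine check_sound h hb certD4 _ (by decide) (fun k hk => ?_) checkD4
          have : k < 5 := hk
          interval_cases k
          exacts [h0, h1, h2, ih' 3 (by omega) (by omega), h4]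
        · refine check_sound h hb certD5 _ (by decide) (fun k hk => ?_) checkD5
          have : k < 6 := hk
          interval_cases k
          exacts [h0, h1, h2, ih' 3 (by omega) (by omega), ih' 4 (by omega) (by omega), h4]
        · refine check_sound h hb certD6 _ (by decide) (fun k hk => ?_) checkD6
          have : k < 7 := hk
          interval_cases k
          exacts [h0, h1, h2, ih' 3 (by omega) (by omega), ih' 4 (by omega) (by omega),
            ih' 5 (by omega) (by omega), h4]
      · obtain ⟨m, rfl⟩ : ∃ m, n = m + 7 := ⟨n - 7, by omega⟩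
        have hp := two_pos h (x := -2) (by norm_num) [-1, 1, 1, 1, 1, 1] m [-1, -2]
        simp only [Qd, lin, cr, List.length_cons, List.length_nil] at hp
        rw [show 0 + 1 + 1 + 1 + 1 + 1 + 1 + 1 + m = m + 7 by ring,
          show 0 + 1 + 1 + 1 + 1 + 1 + 1 + m = m + 6 by ring,
          show 0 + 1 + 1 + 1 + 1 + 1 + m = m + 5 by ring,
          show 0 + 1 + 1 + 1 + 1 + m = m + 4 by ring,
          show 0 + 1 + 1 + 1 + m = m + 3 by ring,
          show 0 + 1 + 1 + m = m + 2 by ring, show 0 + 1 + m = m + 1 by ring] at hp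
        simp only [add_assoc] at hp
        norm_num at hp
        rw [h5, h4, ih' (m + 1) (by omega) (by omega), ih' (m + 2) (by omega) (by omega),
          ih' (m + 3) (by omega) (by omega), ih' (m + 4) (by omega) (by omega),
          ih' (m + 5) (by omega) (by omega), ih' (m + 6) (by omega) (by omega), h0, h1, h2,
          ih' 3 (by omega) (by omega), ih' 4 (by omega) (by omega), ih' 5 (by omega) (by omega),
          ih' 6 (by omega) (by omega)] at hp
        norm_num at hp
    · have hp := two_pos h (x := 1) (by norm_num) [-1] (n - 2) [1, -1]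
      simp only [Qd, lin, cr, List.length_cons, List.length_nil] at hp
      rw [show 0 + 1 + 1 + (n - 2) = n by omega, show 0 + 1 + (n - 2) = n - 1 by omega,
        show n - 1 + 1 = n by omega, ih' (n - 1) (by omega) (by omega), h4, h5, h0, h1] at hp
      norm_num at hp
  · exact h4

/-- type `D` -/
theorem typeD {c : ℕ → ℤ} (h : Pos c) (h0 : c 0 = 2) (h1 : c 1 = -1) (h2 : c 2 = 1) :
    ∀ k, 1 ≤ k → c k = (-1) ^ k := by
  intro k hk
  have h3 := typeD' (pos_alt h) (by rw [h0]; norm_num) (by rw [h1]; norm_num)
    (by rw [h2]; norm_num) k hk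
  have h4 : (-1 : ℤ) ^ k * (-1) ^ k = 1 := by rw [← mul_pow]; norm_num
  calc c k = ((-1) ^ k * (-1) ^ k) * c k := by rw [h4, one_mul]
    _ = (-1) ^ k * ((-1) ^ k * c k) := by ring
    _ = (-1) ^ k := by rw [h3, mul_one]

/-- the alternative -/
theorem alternative {c : ℕ → ℤ} (h : Pos c) (h0 : c 0 = 2) (h1 : c 1 = -1) :
    (∀ k, 2 ≤ k → c k = 0) ∨ ∀ k, 1 ≤ k → c k = (-1) ^ k := by
  rcases bound h h0 2 (by norm_num) with h2 | h2 | h2
  · exfalso
    have hp := Qd_pos h (x := 1) one_ne_zero [1, 1]
    simp only [Qd, lin] at hp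
    norm_num at hp
    rw [h0, h1, h2] at hp
    norm_num at hp
  · exact Or.inl (typeA h h0 h1 h2)
  · exact Or.inr (typeD h h0 h1 h2)

end Pool.Agent.X303.SC
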