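import Pool.Agent.X303.SC.Conj
import Pool.Agent.Y139.SM.Rigid2
import Pool.Agent.Y139.SM.Bessel
import Pool.Agent.Y139.SM.Fin2

/-! Bessel's inequality with the order of the tensor square. -/

set_option autoImplicit false

namespace Pool.Agent.X303.SC

open Complex Filter Topology ComplexConjugate Pool.Agent.H341R2 NumberField IsDedekindDomain
  Pool.Agent.W401.Cheb Pool.Agent.W540.BE Polynomial Pool.Agent.W353.L1 Pool.Agent.W353.AT
open Pool.Agent.W353.EF (IsFrobenius LFun)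
open Pool.Agent.W353.EH (edgePoint size HasOrder)
open Pool.Agent.W353.PV (Eig alp tF pick_spec lim_ord)
open Pool.Agent.Y139.SM (IsPowerSystem one_artin RR_one power_size size_of_order)

variable {K : Type} [Field K] [NumberField K] {l : ℕ} {X : Set (MvPolynomial (Fin l) (𝓞 K))}
  {d i N : ℕ}

/-- the second moment -/
theorem second (hi : i ≤ 2 * d) {σ : HeightOneSpectrum (𝓞 K) → GK K} (hσ : ∀ v, IsFrob v (σ v))
    {B₂ : HeightOneSpectrum (𝓞 K) → ℂ[X]} (hB₂ : IsPowerSystem X d i N 2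
      (1 : Representation ℂ (GK K) (Fin 1 → ℂ)) B₂) :
    Tendsto (fun ε : ℝ => (EP (nm K) ε fun v => tF X d i N K v * tF X d i N K v) / lam ε -
      size (2 * i) 0 B₂ ε) (𝓝[>] 0) (𝓝 0) := by
  refine (power_size hi hσ 2 _ one_artin B₂ hB₂).2.congr fun ε => ?_
  have e : (fun v => (tF X d i N K v) ^ 2 * RR (1 : Representation ℂ (GK K) (Fin 1 → ℂ)) 0 σ v) =
      fun v => tF X d i N K v * tF X d i N K v := by
    funext v
    rw [RR_one, mul_one, sq]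
  rw [e]

/-- the sizes -/
theorem besselSize (hi : i ≤ 2 * d) {B₂ : HeightOneSpectrum (𝓞 K) → ℂ[X]}
    (hB₂ : IsPowerSystem X d i N 2 (1 : Representation ℂ (GK K) (Fin 1 → ℂ)) B₂)
    {κ : Type} [Fintype κ] {n : κ → ℕ}
    {ρ : ∀ k, Representation ℂ (GK K) (Fin (n k) → ℂ)} {τ : κ → ℝ}
    (hA : ∀ k, IsArtin (ρ k)) (hirr : ∀ k, (ρ k).IsIrreducible)
    (hne : ∀ k l, k ≠ l → τ k = τ l → IsEmpty ((ρ k).Equiv (ρ l)))
    {B : κ → HeightOneSpectrum (𝓞 K) → ℂ[X]}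
    (hB : ∀ k, IsTwistedSystem X d i N (ρ k) (τ k) (B k)) {η : ℝ} (hη : 0 < η) :
    ∀ᶠ ε : ℝ in 𝓝[>] 0, ∑ k, (size i (τ k) (B k) ε) ^ 2 ≤ size (2 * i) 0 B₂ ε + η := by
  classical
  obtain ⟨U, hUn, hU, hρ⟩ := exists_common ρ hA
  have hfin : Finite (GK K ⧸ U) := Subgroup.quotient_finite_of_isOpen U hU
  choose σ hσ using exists_isFrob (F := K)
  have hT : ∀ v, |tF X d i N K v| ≤ (N : ℝ) := fun v => abs_tr_le _ _ _
  exact Pool.Agent.Y139.SM.bessel_two U hU Finset.univ ρ hρ τ σ hσ (Nat.cast_nonneg N) hT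
    (x := fun k => size i (τ k) (B k))
    (fun k _ => (tw_size hi U (ρ k) (hρ k) (τ k) (B k) (hB k) σ hσ).2)
    (second hi hσ hB₂) (fun k _ => hirr k) (fun k _ l _ => hne k l) hη

/-- the orders -/
theorem besselOrder (hi : i ≤ 2 * d) {B₂ : HeightOneSpectrum (𝓞 K) → ℂ[X]}
    (hB₂ : IsPowerSystem X d i N 2 (1 : Representation ℂ (GK K) (Fin 1 → ℂ)) B₂)
    {k₂ : ℤ} (hk₂ : HasOrder (2 * i) 0 B₂ k₂)
    {κ : Type} [Fintype κ] {n : κ → ℕ}
    {ρ : ∀ k, Representation ℂ (GK K) (Fin (n k) → ℂ)} {τ : κ → ℝ}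
    (hA : ∀ k, IsArtin (ρ k)) (hirr : ∀ k, (ρ k).IsIrreducible)
    (hne : ∀ k l, k ≠ l → τ k = τ l → IsEmpty ((ρ k).Equiv (ρ l)))
    {m : κ → ℤ} (hm : ∀ k, TwistOrder X d i N (ρ k) (τ k) (m k)) :
    ∑ k, m k ^ 2 ≤ -k₂ := by
  classical
  choose B hB hm using hm
  obtain ⟨U, hUn, hU, hρ⟩ := exists_common ρ hA
  have hfin : Finite (GK K ⧸ U) := Subgroup.quotient_finite_of_isOpen U hU
  choose σ hσ using exists_isFrob (F := K)
  have t2 : Tendsto (size (2 * i) 0 B₂) (𝓝[>] 0) (𝓝 (-(k₂ : ℝ))) :=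
    size_of_order (power_size hi hσ 2 _ one_artin B₂ hB₂).1 hk₂
  have t1 : Tendsto (fun ε => ∑ k, (size i (τ k) (B k) ε) ^ 2) (𝓝[>] 0)
      (𝓝 (∑ k, (-(m k : ℝ)) ^ 2)) :=
    tendsto_finsetSum _ fun k _ => (tw_lim hi U (ρ k) (hρ k) (τ k) (B k) (hB k) (hm k)).pow 2
  have h : ∑ k, (-(m k : ℝ)) ^ 2 ≤ -(k₂ : ℝ) := by
    refine le_of_forall_pos_le_add fun η hη => ?_
    exact le_of_tendsto_of_tendsto t1 (t2.add_const η) (besselSize hi hB₂ hA hirr hne hB hη)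
  have h2 : ∑ k, (-(m k : ℝ)) ^ 2 = ((∑ k, m k ^ 2 : ℤ) : ℝ) := by
    push_cast
    exact Finset.sum_congr rfl fun k _ => by ring
  rw [h2] at h
  exact_mod_cast h

theorem cj_artin {n : ℕ} {ρ : Representation ℂ (GK K) (Fin n → ℂ)} (h : IsArtin ρ) :
    IsArtin (cj ρ) := by
  obtain ⟨U, hU, h1⟩ := h
  exact ⟨U, hU, fun u hu => cj_one_of ρ (h1 u hu)⟩

theorem RR_cj {n : ℕ} (ρ : Representation ℂ (GK K) (Fin n → ℂ)) (t : ℝ)
    (σ : HeightOneSpectrum (𝓞 K) → GK K) (v : HeightOneSpectrum (𝓞 K)) :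
    RR (cj ρ) (-t) σ v = RR ρ t σ v := by
  unfold RR
  rw [cj_character, ← conj_zz, ← map_mul, Complex.conj_re]

/-- a pair that is not its own conjugate counts twice -/
theorem besselConj (hi : i ≤ 2 * d) {B₂ : HeightOneSpectrum (𝓞 K) → ℂ[X]}
    (hB₂ : IsPowerSystem X d i N 2 (1 : Representation ℂ (GK K) (Fin 1 → ℂ)) B₂)
    {k₂ : ℤ} (hk₂ : HasOrder (2 * i) 0 B₂ k₂) {n : ℕ}
    {ρ : Representation ℂ (GK K) (Fin n → ℂ)} {τ : ℝ} (hA : IsArtin ρ) (hirr : ρ.IsIrreducible)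
    (hne : τ ≠ 0 ∨ ∃ g, (ρ.character g).im ≠ 0) {m : ℤ} (hm : TwistOrder X d i N ρ τ m) :
    2 * m ^ 2 ≤ -k₂ := by
  classical
  obtain ⟨B, hB, hm⟩ := hm
  set ρ' : Fin 2 → Representation ℂ (GK K) (Fin n → ℂ) := ![ρ, cj ρ] with hρ'
  set τ' : Fin 2 → ℝ := ![τ, -τ] with hτ'
  have hA' : ∀ k, IsArtin (ρ' k) := by
    intro k
    fin_cases k
    · exact hA
    · exact cj_artin hA
  have hirr' : ∀ k, (ρ' k).IsIrreducible := by
    intro k
    fin_cases k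
    · exact hirr
    · exact cj_irr hirr
  have key : τ = -τ → IsEmpty (ρ.Equiv (cj ρ)) ∧ IsEmpty ((cj ρ).Equiv ρ) := by
    intro h0
    have h0 : τ = 0 := by linarith
    rcases hne with h | ⟨g, hg⟩
    · exact absurd h0 h
    · have h1 : ρ.character ≠ (cj ρ).character := by
        intro h2
        have h3 := congrFun h2 g
        rw [cj_character] at h3
        have h4 := congrArg Complex.im h3
        rw [Complex.conj_im] at h4
        exact hg (by linarith)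
      exact ⟨⟨fun e => h1 (Representation.char_iso e)⟩,
        ⟨fun e => h1 (Representation.char_iso e).symm⟩⟩
  have hne' : ∀ k ∈ (Finset.univ : Finset (Fin 2)), ∀ l ∈ (Finset.univ : Finset (Fin 2)),
      k ≠ l → τ' k = τ' l → IsEmpty ((ρ' k).Equiv (ρ' l)) := by
    intro k _ l _ hkl h
    fin_cases k <;> fin_cases l
    · exact absurd rfl hkl
    · exact (key h).1
    · exact (key h.symm).2
    · exact absurd rfl hkl
  obtain ⟨U, hUn, hU, hρ⟩ := exists_common (K := K) (n := fun _ : Fin 2 => n) ρ' hA'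
  have hfin : Finite (GK K ⧸ U) := Subgroup.quotient_finite_of_isOpen U hU
  choose σ hσ using exists_isFrob (F := K)
  have hT : ∀ v, |tF X d i N K v| ≤ (N : ℝ) := fun v => abs_tr_le _ _ _
  have hs := (tw_size hi U ρ (hρ 0) τ B hB σ hσ).2
  have hs' : ∀ k ∈ (Finset.univ : Finset (Fin 2)), Tendsto (fun ε : ℝ =>
      (EP (nm K) ε fun v => tF X d i N K v * RR (ρ' k) (τ' k) σ v) / lam ε -
        size i τ B ε) (𝓝[>] 0) (𝓝 0) := by
    intro k _
    fin_cases k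
    · exact hs
    · refine hs.congr fun ε => ?_
      have e : (fun v => tF X d i N K v * RR ρ τ σ v) =
          fun v => tF X d i N K v * RR (cj ρ) (-τ) σ v := by
        funext v
        rw [RR_cj]
      rw [e]
      rfl
  have t1 := tw_lim hi U ρ (hρ 0) τ B hB hm
  have t2 : Tendsto (size (2 * i) 0 B₂) (𝓝[>] 0) (𝓝 (-(k₂ : ℝ))) :=
    size_of_order (power_size hi hσ 2 _ one_artin B₂ hB₂).1 hk₂
  have h := Pool.Agent.Y139.SM.bessel_two_lim U hU (Finset.univ : Finset (Fin 2)) ρ' hρ τ' σ hσ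
    (Nat.cast_nonneg N) hT (x := fun _ => size i τ B) hs' (second hi hσ hB₂)
    (fun k _ => hirr' k) hne' (y := fun _ => -(m : ℝ)) (fun _ _ => t1) t2
  simp only [Finset.sum_const, Finset.card_univ, Fintype.card_fin, nsmul_eq_mul] at h
  have h' : 2 * (m : ℝ) ^ 2 ≤ -(k₂ : ℝ) := by
    have : ((2 : ℕ) : ℝ) * (-(m : ℝ)) ^ 2 = 2 * (m : ℝ) ^ 2 := by push_cast; ring
    linarith
  exact_mod_cast h'

end Pool.Agent.X303.SC
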