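import Pool.Agent.X303.SC.Form

/-! Certificates for the Toeplitz form. -/

set_option autoImplicit false

namespace Pool.Agent.X303.SC

open Polynomial

/-- `∑ x_j c (k + j)` -/
def lin (c : ℕ → ℤ) : ℕ → List ℤ → ℤ
  | _, [] => 0
  | k, x :: L => x * c k + lin c (k + 1) L

/-- the form on lists -/
def Qd (c : ℕ → ℤ) : List ℤ → ℤ
  | [] => 0
  | x :: L => x * x * c 0 + 2 * x * lin c 1 L + Qd c L

/-- the polynomial of a list -/
noncomputable def ofL : ℕ → List ℤ → ℤ[X]
  | _, [] => 0
  | p, x :: L => monomial p x + ofL (p + 1) L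

theorem bil_lin (c : ℕ → ℤ) (p : ℕ) (x : ℤ) : ∀ (L : List ℤ) (k : ℕ),
    bil c (monomial p x) (ofL (p + k) L) = x * lin c k L
  | [], k => by rw [ofL, lin, bil_zero_right, mul_zero]
  | y :: L, k => by
    rw [ofL, lin, bil_add_right, bil_mono, add_assoc, bil_lin c p x L (k + 1)]
    have : df p (p + k) = k := by unfold df; omega
    rw [this]
    ring

theorem bil_ofL (c : ℕ → ℤ) : ∀ (L : List ℤ) (p : ℕ), bil c (ofL p L) (ofL p L) = Qd c L
  | [], p => by rw [ofL, Qd, bil_zero_right]
  | x :: L, p => by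
    rw [ofL, Qd, bil_add_sq, bil_mono, bil_lin c p x L 1, bil_ofL c L (p + 1)]
    have : df p p = 0 := by unfold df; omega
    rw [this]
    ring

theorem ofL_coeff : ∀ (L : List ℤ) (p k : ℕ), k < p → (ofL p L).coeff k = 0
  | [], p, k, _ => by rw [ofL, coeff_zero]
  | x :: L, p, k, h => by
    rw [ofL, coeff_add, coeff_monomial, if_neg (by omega), ofL_coeff L (p + 1) k (by omega),
      add_zero]

theorem ofL_ne {x : ℤ} (hx : x ≠ 0) (L : List ℤ) (p : ℕ) : ofL p (x :: L) ≠ 0 := by
  intro h
  have h1 := congrArg (fun P : ℤ[X] => P.coeff p) h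
  simp only [ofL, coeff_add, coeff_monomial, coeff_zero, if_true] at h1
  rw [ofL_coeff L (p + 1) p (by omega), add_zero] at h1
  exact hx h1

theorem Qd_pos {c : ℕ → ℤ} (h : Pos c) {x : ℤ} (hx : x ≠ 0) (L : List ℤ) : 0 < Qd c (x :: L) := by
  rw [← bil_ofL c (x :: L) 0]
  exact h _ (ofL_ne hx L 0)

theorem lin_congr {c c' : ℕ → ℤ} : ∀ (L : List ℤ) (k : ℕ),
    (∀ j, k ≤ j → j < k + L.length → c j = c' j) → lin c k L = lin c' k L
  | [], k, _ => rfl
  | x :: L, k, h => by
    rw [lin, lin, h k le_rfl (by simp), lin_congr L (k + 1) fun j h1 h2 =>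
      h j (by omega) (by rw [List.length_cons]; omega)]

theorem Qd_congr {c c' : ℕ → ℤ} : ∀ (L : List ℤ),
    (∀ j, j < L.length → c j = c' j) → Qd c L = Qd c' L
  | [], _ => rfl
  | x :: L, h => by
    rw [Qd, Qd, h 0 (by simp), Qd_congr L fun j hj => h j (by rw [List.length_cons]; omega),
      lin_congr L 1 fun j _ h2 => h j (by rw [List.length_cons]; omega)]

/-- a certificate that a beginning cannot be continued -/
inductive Cert
  | leaf (x : List ℤ)
  | node (a b c : Cert)

/-- the vector of a leaf is admissible and has nonpositive value -/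
def good (pre x : List ℤ) : Bool :=
  (x.headI != 0) && (x.length ≤ pre.length) && (Qd (fun k => pre.getD k 0) x ≤ 0)

/-- the checker -/
def check : List ℤ → Cert → Bool
  | pre, .leaf x => good pre x
  | pre, .node a b c => check (pre ++ [-1]) a && check (pre ++ [0]) b && check (pre ++ [1]) c

theorem good_sound {c : ℕ → ℤ} (h : Pos c) {pre x : List ℤ}
    (hp : ∀ k, k < pre.length → c k = pre.getD k 0) (hg : good pre x = true) : False := by
  unfold good at hg
  simp only [Bool.and_eq_true, bne_iff_ne, ne_eq, decide_eq_true_eq] at hg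
  obtain ⟨⟨h1, h2⟩, h3⟩ := hg
  match x, h1, h2, h3 with
  | [], h1, _, _ => exact h1 rfl
  | a :: L, h1, h2, h3 =>
    have h4 := Qd_pos h (x := a) (by simpa using h1) L
    rw [Qd_congr (c' := fun k => pre.getD k 0) (a :: L) fun j hj => hp j (by omega)] at h4
    omega

theorem check_sound {c : ℕ → ℤ} (h : Pos c) (hb : ∀ k, 0 < k → c k = -1 ∨ c k = 0 ∨ c k = 1) :
    ∀ (T : Cert) (pre : List ℤ), 0 < pre.length → (∀ k, k < pre.length → c k = pre.getD k 0) →
      check pre T = true → False
  | .leaf x, pre, _, hp, hc => good_sound h hp hc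
  | .node a b d, pre, hl, hp, hc => by
    simp only [check, Bool.and_eq_true] at hc
    have key : ∀ y : ℤ, c pre.length = y → ∀ k, k < (pre ++ [y]).length →
        c k = (pre ++ [y]).getD k 0 := by
      intro y hy k hk
      rw [List.length_append, List.length_singleton] at hk
      rcases Nat.lt_or_ge k pre.length with h1 | h1
      · rw [hp k h1, List.getD_append _ _ _ _ h1]
      · have h2 : k = pre.length := by omega
        rw [h2, hy, List.getD_append_right _ _ _ _ le_rfl]
        simp
    rcases hb pre.length hl with h1 | h1 | h1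
    · exact check_sound h hb a _ (by simp) (key _ h1) hc.1.1
    · exact check_sound h hb b _ (by simp) (key _ h1) hc.1.2
    · exact check_sound h hb d _ (by simp) (key _ h1) hc.2

theorem bound {c : ℕ → ℤ} (h : Pos c) (h0 : c 0 = 2) (k : ℕ) (hk : 0 < k) :
    c k = -1 ∨ c k = 0 ∨ c k = 1 := by
  have hd : df 0 k = k := by unfold df; omega
  have h00 : df 0 0 = 0 := rfl
  have hkk : df k k = 0 := by unfold df; omega
  have e1 : bil c (monomial 0 1 + monomial k 1) (monomial 0 1 + monomial k 1) = 4 + 2 * c k := by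
    rw [bil_add_sq, bil_mono, bil_mono, bil_mono, hd, h00, hkk, h0]
    ring
  have e2 : bil c (monomial 0 1 - monomial k 1) (monomial 0 1 - monomial k 1) = 4 - 2 * c k := by
    rw [bil_sub_sq, bil_mono, bil_mono, bil_mono, hd, h00, hkk, h0]
    ring
  have n1 : (monomial 0 1 + monomial k 1 : ℤ[X]) ≠ 0 := by
    intro h1
    have h2 := congrArg (fun P : ℤ[X] => P.coeff 0) h1
    simp only [coeff_add, coeff_monomial, coeff_zero, if_true, if_neg hk.ne'] at h2
    norm_num at h2
  have n2 : (monomial 0 1 - monomial k 1 : ℤ[X]) ≠ 0 := by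
    intro h1
    have h2 := congrArg (fun P : ℤ[X] => P.coeff 0) h1
    simp only [coeff_sub, coeff_monomial, coeff_zero, if_true, if_neg hk.ne'] at h2
    norm_num at h2
  have p1 := h _ n1
  have p2 := h _ n2
  rw [e1] at p1
  rw [e2] at p2
  omega

end Pool.Agent.X303.SC
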