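import Mathlib

/-! The complex conjugate of a representation on `ℂⁿ`. -/

set_option autoImplicit false

namespace Pool.Agent.X303.SC

open ComplexConjugate

variable {G : Type*} [Group G] {n : ℕ}

/-- the conjugate of an endomorphism of `ℂⁿ` -/
def cjEnd (f : (Fin n → ℂ) →ₗ[ℂ] (Fin n → ℂ)) : (Fin n → ℂ) →ₗ[ℂ] (Fin n → ℂ) where
  toFun v := fun i => conj (f (fun j => conj (v j)) i)
  map_add' v w := by
    have : (fun j => conj ((v + w) j)) = (fun j => conj (v j)) + fun j => conj (w j) := by
      funext j; simp
    funext i
    rw [this, map_add]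
    simp
  map_smul' c v := by
    have : (fun j => conj ((c • v) j)) = (conj c) • fun j => conj (v j) := by
      funext j; simp
    funext i
    rw [this, map_smul]
    simp

theorem cjEnd_apply (f : (Fin n → ℂ) →ₗ[ℂ] (Fin n → ℂ)) (v : Fin n → ℂ) (i : Fin n) :
    cjEnd f v i = conj (f (fun j => conj (v j)) i) := rfl

theorem cj_cj (v : Fin n → ℂ) : (fun j => conj ((fun i => conj (v i)) j)) = v := by
  funext j; simp

/-- the conjugate representation -/
def cj (ρ : Representation ℂ G (Fin n → ℂ)) : Representation ℂ G (Fin n → ℂ) where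
  toFun g := cjEnd (ρ g)
  map_one' := by
    refine LinearMap.ext fun v => funext fun i => ?_
    rw [cjEnd_apply, map_one]
    simp
  map_mul' g h := by
    refine LinearMap.ext fun v => funext fun i => ?_
    rw [cjEnd_apply, map_mul, Module.End.mul_apply, Module.End.mul_apply, cjEnd_apply]
    congr 2
    have e : (fun j => conj (cjEnd (ρ h) v j)) = ρ h (fun j => conj (v j)) := by
      funext j
      rw [cjEnd_apply, Complex.conj_conj]
    rw [e]

theorem cj_apply (ρ : Representation ℂ G (Fin n → ℂ)) (g : G) (v : Fin n → ℂ) (i : Fin n) :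
    cj ρ g v i = conj (ρ g (fun j => conj (v j)) i) := rfl

theorem cj_one_of (ρ : Representation ℂ G (Fin n → ℂ)) {g : G} (h : ρ g = 1) : cj ρ g = 1 := by
  refine LinearMap.ext fun v => funext fun i => ?_
  rw [cj_apply, h]
  simp

theorem cj_character (ρ : Representation ℂ G (Fin n → ℂ)) (g : G) :
    (cj ρ).character g = conj (ρ.character g) := by
  have key : ∀ f : (Fin n → ℂ) →ₗ[ℂ] (Fin n → ℂ), LinearMap.trace ℂ (Fin n → ℂ) f =
      ∑ i, f (Pi.single i 1) i := by
    intro f
    rw [LinearMap.trace_eq_matrix_trace ℂ (Pi.basisFun ℂ (Fin n)) f, Matrix.trace]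
    refine Finset.sum_congr rfl fun i _ => ?_
    rw [Matrix.diag_apply, LinearMap.toMatrix_apply, Pi.basisFun_apply, Pi.basisFun_repr]
  change LinearMap.trace ℂ (Fin n → ℂ) (cj ρ g) = conj (LinearMap.trace ℂ (Fin n → ℂ) (ρ g))
  rw [key, key, map_sum]
  refine Finset.sum_congr rfl fun i _ => ?_
  rw [cj_apply]
  congr 2
  have e : (fun j => conj ((Pi.single i (1 : ℂ) : Fin n → ℂ) j)) = Pi.single i 1 := by
    funext j
    by_cases h : j = i
    · subst h; simp
    · simp [Pi.single_eq_of_ne h]
  rw [e]

/-- the conjugate of a subrepresentation -/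
def cjSub (ρ : Representation ℂ G (Fin n → ℂ)) (W : Subrepresentation ρ) :
    Subrepresentation (cj ρ) where
  toSubmodule :=
    { carrier := {v | (fun j => conj (v j)) ∈ W.toSubmodule}
      add_mem' := fun {v w} hv hw => by
        have : (fun j => conj ((v + w) j)) = (fun j => conj (v j)) + fun j => conj (w j) := by
          funext j; simp
        change (fun j => conj ((v + w) j)) ∈ W.toSubmodule
        rw [this]
        exact W.toSubmodule.add_mem hv hw
      zero_mem' := by
        have : (fun j => conj ((0 : Fin n → ℂ) j)) = 0 := by funext j; simp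
        change (fun j => conj ((0 : Fin n → ℂ) j)) ∈ W.toSubmodule
        rw [this]
        exact W.toSubmodule.zero_mem
      smul_mem' := fun c v hv => by
        have : (fun j => conj ((c • v) j)) = (conj c) • fun j => conj (v j) := by
          funext j; simp
        change (fun j => conj ((c • v) j)) ∈ W.toSubmodule
        rw [this]
        exact W.toSubmodule.smul_mem _ hv }
  apply_mem_toSubmodule g v hv := by
    have e : (fun j => conj (cj ρ g v j)) = ρ g (fun j => conj (v j)) := by
      funext j
      rw [cj_apply, Complex.conj_conj]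
    change (fun j => conj (cj ρ g v j)) ∈ W.toSubmodule
    rw [e]
    exact W.apply_mem_toSubmodule g hv

theorem mem_cjSub (ρ : Representation ℂ G (Fin n → ℂ)) (W : Subrepresentation ρ)
    (v : Fin n → ℂ) : v ∈ (cjSub ρ W).toSubmodule ↔ (fun j => conj (v j)) ∈ W.toSubmodule := Iff.rfl

/-- back -/
def cjBack (ρ : Representation ℂ G (Fin n → ℂ)) (W : Subrepresentation (cj ρ)) :
    Subrepresentation ρ where
  toSubmodule :=
    { carrier := {v | (fun j => conj (v j)) ∈ W.toSubmodule}
      add_mem' := fun {v w} hv hw => by
        have : (fun j => conj ((v + w) j)) = (fun j => conj (v j)) + fun j => conj (w j) := by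
          funext j; simp
        change (fun j => conj ((v + w) j)) ∈ W.toSubmodule
        rw [this]
        exact W.toSubmodule.add_mem hv hw
      zero_mem' := by
        have : (fun j => conj ((0 : Fin n → ℂ) j)) = 0 := by funext j; simp
        change (fun j => conj ((0 : Fin n → ℂ) j)) ∈ W.toSubmodule
        rw [this]
        exact W.toSubmodule.zero_mem
      smul_mem' := fun c v hv => by
        have : (fun j => conj ((c • v) j)) = (conj c) • fun j => conj (v j) := by
          funext j; simp
        change (fun j => conj ((c • v) j)) ∈ W.toSubmodule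
        rw [this]
        exact W.toSubmodule.smul_mem _ hv }
  apply_mem_toSubmodule g v hv := by
    have e : (fun j => conj (ρ g v j)) = cj ρ g (fun j => conj (v j)) := by
      funext j
      rw [cj_apply, cj_cj]
    change (fun j => conj (ρ g v j)) ∈ W.toSubmodule
    rw [e]
    exact W.apply_mem_toSubmodule g hv

/-- the lattices of subrepresentations are isomorphic -/
def cjIso (ρ : Representation ℂ G (Fin n → ℂ)) : Subrepresentation ρ ≃o Subrepresentation (cj ρ) where
  toFun := cjSub ρ
  invFun := cjBack ρ
  left_inv W := by
    apply Subrepresentation.toSubmodule_injective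
    refine Submodule.ext fun v => ?_
    change (fun j => conj ((fun i => conj (v i)) j)) ∈ W.toSubmodule ↔ _
    rw [cj_cj]
  right_inv W := by
    apply Subrepresentation.toSubmodule_injective
    refine Submodule.ext fun v => ?_
    change (fun j => conj ((fun i => conj (v i)) j)) ∈ W.toSubmodule ↔ _
    rw [cj_cj]
  map_rel_iff' {W W'} := by
    constructor
    · intro h v hv
      have h1 : (fun j => conj (v j)) ∈ cjSub ρ W := by
        change (fun j => conj ((fun i => conj (v i)) j)) ∈ W.toSubmodule
        rw [cj_cj]
        exact hv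
      have h2 : (fun j => conj ((fun i => conj (v i)) j)) ∈ W'.toSubmodule := h h1
      rw [cj_cj] at h2
      exact h2
    · intro h v hv
      exact h (show (fun j => conj (v j)) ∈ W from hv)

theorem cj_irr {ρ : Representation ℂ G (Fin n → ℂ)} (h : ρ.IsIrreducible) :
    (cj ρ).IsIrreducible :=
  (OrderIso.isSimpleOrder_iff (cjIso ρ)).1 h

end Pool.Agent.X303.SC
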