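import Pool.Agent.X303.SC.Law

/-! Equidistribution. -/

set_option autoImplicit false

namespace Pool.Agent.X303.SC

open Filter Topology NumberField IsDedekindDomain Pool.Agent.W353.L1 Polynomial

variable {K : Type} [Field K] [NumberField K]
  {t : HeightOneSpectrum (𝓞 K) → ℝ} {M : ℕ → ℤ}

/-- a mean value functional on continuous functions -/
structure MeanFun (L : (ℝ → ℝ) → ℝ) : Prop where
  add : ∀ f g : ℝ → ℝ, Continuous f → Continuous g → L (fun x => f x + g x) = L f + L g
  mul : ∀ (c : ℝ) (f : ℝ → ℝ), Continuous f → L (fun x => c * f x) = c * L f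
  near : ∀ (f g : ℝ → ℝ) (η : ℝ), Continuous f → Continuous g → 0 ≤ η →
    (∀ x ∈ Set.Icc (-2 : ℝ) 2, |f x - g x| ≤ η) → |L f - L g| ≤ η

theorem Tr.equi (h : Tr t M) {L : (ℝ → ℝ) → ℝ} (hL : MeanFun L)
    (hC : ∀ k : ℕ, L (fun x => (Chebyshev.C ℝ k).eval x) = cM M k) {f : ℝ → ℝ}
    (hf : Continuous f) : Has (fun v => f (t v)) (L f) := by
  have h1 : ∀ (r : ℕ) (k : ℤ), Has (fun v => (X ^ r * Chebyshev.C ℝ k).eval (t v))
      (L fun x => (X ^ r * Chebyshev.C ℝ k).eval x) := by
    intro r
    induction r with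
    | zero =>
      intro k
      have e : (fun x : ℝ => (X ^ 0 * Chebyshev.C ℝ k).eval x) =
          fun x => (Chebyshev.C ℝ (k.natAbs : ℕ)).eval x := by
        funext x
        rw [pow_zero, one_mul, Chebyshev.C_natAbs]
      rw [e, hC]
      refine (h.cheb k.natAbs).congr (fun v => ?_) rfl
      rw [pow_zero, one_mul, Chebyshev.C_natAbs]
    | succ r ih =>
      intro k
      have e : X ^ (r + 1) * Chebyshev.C ℝ k =
          X ^ r * Chebyshev.C ℝ (k + 1) + X ^ r * Chebyshev.C ℝ (k - 1) := by
        rw [Chebyshev.C_add_one]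
        ring
      refine ((ih (k + 1)).add (ih (k - 1))).congr (fun v => ?_) ?_
      · rw [e, eval_add]
      · rw [← hL.add _ _ (by fun_prop) (by fun_prop)]
        congr 1
        funext x
        rw [e, eval_add]
  have h2 : ∀ P : ℝ[X], Has (fun v => P.eval (t v)) (L fun x => P.eval x) := by
    intro P
    induction P using Polynomial.induction_on' with
    | add p q hp hq =>
      refine (hp.add hq).congr (fun v => by rw [eval_add]) ?_
      rw [← hL.add _ _ (by fun_prop) (by fun_prop)]
      congr 1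
      funext x
      rw [eval_add]
    | monomial r a =>
      refine ((h1 r 0).const_mul (a / 2)).congr (fun v => ?_) ?_
      · rw [Chebyshev.C_zero, eval_mul, eval_pow, eval_X, eval_monomial]
        simp only [eval_ofNat]
        ring
      · rw [← hL.mul _ _ (by fun_prop)]
        congr 1
        funext x
        rw [Chebyshev.C_zero, eval_mul, eval_pow, eval_X, eval_monomial]
        simp only [eval_ofNat]
        ring
  obtain ⟨B, hB⟩ : ∃ B : ℝ, ∀ x ∈ Set.Icc (-2 : ℝ) 2, |f x| ≤ B := by
    obtain ⟨B, hB⟩ := isCompact_Icc.exists_bound_of_continuousOn (s := Set.Icc (-2 : ℝ) 2)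
      hf.continuousOn
    exact ⟨B, fun x hx => by simpa using hB x hx⟩
  have ht : ∀ v, t v ∈ Set.Icc (-2 : ℝ) 2 := fun v => abs_le.1 (h.1 v)
  refine has_of_approx (fun v => hB _ (ht v)) fun η hη => ?_
  obtain ⟨p, hp⟩ := exists_polynomial_near_of_continuousOn (-2) 2 f hf.continuousOn η hη
  refine ⟨fun v => p.eval (t v), L fun x => p.eval x, h2 p, fun v => ?_, ?_⟩
  · rw [abs_sub_comm]
    exact (hp _ (ht v)).le
  · exact hL.near _ _ _ (by fun_prop) hf hη.le fun x hx => (hp x hx).le

theorem int_cos (m : ℤ) : ∫ θ in (0 : ℝ)..Real.pi, Real.cos (m * θ) =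
    if m = 0 then Real.pi else 0 := by
  split_ifs with hm
  · rw [hm]
    simp
  · have hm' : (m : ℝ) ≠ 0 := by exact_mod_cast hm
    rw [intervalIntegral.integral_comp_mul_left (fun x => Real.cos x) hm', integral_cos,
      mul_zero, Real.sin_zero, Real.sin_int_mul_pi, sub_zero, smul_zero]

theorem cos_two {x : ℝ} : 2 * Real.cos x ∈ Set.Icc (-2 : ℝ) 2 :=
  ⟨by linarith [Real.neg_one_le_cos x], by linarith [Real.cos_le_one x]⟩

theorem satoTate_mean : MeanFun satoTate where
  add f g hf hg := by
    unfold satoTate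
    rw [← mul_add, ← intervalIntegral.integral_add
      (Continuous.intervalIntegrable (by fun_prop) _ _)
      (Continuous.intervalIntegrable (by fun_prop) _ _)]
    congr 2
    funext θ
    ring
  mul c f hf := by
    unfold satoTate
    have : (∫ θ in (0 : ℝ)..Real.pi, c * f (2 * Real.cos θ) * Real.sin θ ^ 2) =
        c * ∫ θ in (0 : ℝ)..Real.pi, f (2 * Real.cos θ) * Real.sin θ ^ 2 := by
      rw [← intervalIntegral.integral_const_mul]
      congr 1
      funext θ
      ring
    rw [this]
    ring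
  near f g η hf hg hη h := by
    unfold satoTate
    rw [← mul_sub, ← intervalIntegral.integral_sub
      (Continuous.intervalIntegrable (by fun_prop) _ _)
      (Continuous.intervalIntegrable (by fun_prop) _ _)]
    have hpi := Real.pi_pos
    have hI : ∫ θ in (0 : ℝ)..Real.pi, η * Real.sin θ ^ 2 = η * (Real.pi / 2) := by
      rw [intervalIntegral.integral_const_mul, integral_sin_sq]
      simp
    have h1 : ‖∫ θ in (0 : ℝ)..Real.pi, (f (2 * Real.cos θ) * Real.sin θ ^ 2 -
        g (2 * Real.cos θ) * Real.sin θ ^ 2)‖ ≤ ∫ θ in (0 : ℝ)..Real.pi, η * Real.sin θ ^ 2 := by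
      refine intervalIntegral.norm_integral_le_of_norm_le hpi.le
        (MeasureTheory.ae_of_all _ fun θ _ => ?_)
        (Continuous.intervalIntegrable (by fun_prop) _ _)
      have e1 : |Real.sin θ ^ 2| = Real.sin θ ^ 2 := abs_of_nonneg (sq_nonneg _)
      rw [← sub_mul, norm_mul, Real.norm_eq_abs, Real.norm_eq_abs, e1]
      exact mul_le_mul_of_nonneg_right (h _ cos_two) (sq_nonneg _)
    rw [hI, Real.norm_eq_abs] at h1
    rw [abs_mul, abs_of_pos (by positivity : 0 < 2 / Real.pi)]
    calc 2 / Real.pi * |∫ θ in (0 : ℝ)..Real.pi, (f (2 * Real.cos θ) * Real.sin θ ^ 2 -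
        g (2 * Real.cos θ) * Real.sin θ ^ 2)| ≤ 2 / Real.pi * (η * (Real.pi / 2)) :=
          mul_le_mul_of_nonneg_left h1 (by positivity)
      _ = η := by field_simp

theorem satoTate_C (k : ℕ) : satoTate (fun x => (Chebyshev.C ℝ k).eval x) =
    if k = 0 then 2 else if k = 2 then -1 else 0 := by
  unfold satoTate
  have e : (∫ θ in (0 : ℝ)..Real.pi, (Chebyshev.C ℝ k).eval (2 * Real.cos θ) * Real.sin θ ^ 2) =
      (∫ θ in (0 : ℝ)..Real.pi, Real.cos ((k : ℤ) * θ)) -
        (1 / 2) * (∫ θ in (0 : ℝ)..Real.pi, Real.cos (((k : ℤ) + 2 : ℤ) * θ)) -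
        (1 / 2) * (∫ θ in (0 : ℝ)..Real.pi, Real.cos (((k : ℤ) - 2 : ℤ) * θ)) := by
    rw [← intervalIntegral.integral_const_mul, ← intervalIntegral.integral_const_mul,
      ← intervalIntegral.integral_sub (Continuous.intervalIntegrable (by fun_prop) _ _)
        (Continuous.intervalIntegrable (by fun_prop) _ _),
      ← intervalIntegral.integral_sub (Continuous.intervalIntegrable (by fun_prop) _ _)
        (Continuous.intervalIntegrable (by fun_prop) _ _)]
    congr 1
    funext θ
    rw [Chebyshev.C_two_mul_real_cos]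
    have e1 : Real.cos ((((k : ℤ) + 2 : ℤ) : ℝ) * θ) = Real.cos ((k : ℤ) * θ) * Real.cos (2 * θ) -
        Real.sin ((k : ℤ) * θ) * Real.sin (2 * θ) := by
      rw [← Real.cos_add]
      congr 1
      push_cast
      ring
    have e2 : Real.cos ((((k : ℤ) - 2 : ℤ) : ℝ) * θ) = Real.cos ((k : ℤ) * θ) * Real.cos (2 * θ) +
        Real.sin ((k : ℤ) * θ) * Real.sin (2 * θ) := by
      rw [← Real.cos_sub]
      congr 1
      push_cast
      ring
    rw [e1, e2, Real.cos_two_mul, Real.sin_sq]
    ring
  rw [e, int_cos, int_cos, int_cos]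
  have hpi := Real.pi_pos
  by_cases h0 : k = 0
  · subst h0
    simp
  · by_cases h2 : k = 2
    · subst h2
      simp
      field_simp
    · rw [if_neg (by omega), if_neg (by omega), if_neg (by omega), if_neg h0, if_neg h2]
      ring

theorem normaliserLaw_mean : MeanFun normaliserLaw where
  add f g hf hg := by
    unfold normaliserLaw
    rw [intervalIntegral.integral_add
      (Continuous.intervalIntegrable (by fun_prop) _ _)
      (Continuous.intervalIntegrable (by fun_prop) _ _)]
    ring
  mul c f hf := by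
    unfold normaliserLaw
    rw [intervalIntegral.integral_const_mul]
    ring
  near f g η hf hg hη h := by
    unfold normaliserLaw
    have hpi := Real.pi_pos
    have hI : ∫ θ in (0 : ℝ)..Real.pi, η = η * Real.pi := by
      rw [intervalIntegral.integral_const, smul_eq_mul]
      ring
    have h1 : ‖∫ θ in (0 : ℝ)..Real.pi, (f (2 * Real.cos θ) - g (2 * Real.cos θ))‖ ≤
        ∫ θ in (0 : ℝ)..Real.pi, η := by
      refine intervalIntegral.norm_integral_le_of_norm_le hpi.le
        (MeasureTheory.ae_of_all _ fun θ _ => ?_)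
        (Continuous.intervalIntegrable (by fun_prop) _ _)
      rw [Real.norm_eq_abs]
      exact h _ cos_two
    rw [hI, Real.norm_eq_abs] at h1
    have h0 : |f 0 - g 0| ≤ η := h 0 ⟨by norm_num, by norm_num⟩
    have e : f 0 / 2 + 1 / (2 * Real.pi) * (∫ θ in (0 : ℝ)..Real.pi, f (2 * Real.cos θ)) -
        (g 0 / 2 + 1 / (2 * Real.pi) * ∫ θ in (0 : ℝ)..Real.pi, g (2 * Real.cos θ)) =
        (f 0 - g 0) / 2 + 1 / (2 * Real.pi) *
          ∫ θ in (0 : ℝ)..Real.pi, (f (2 * Real.cos θ) - g (2 * Real.cos θ)) := by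
      rw [intervalIntegral.integral_sub (Continuous.intervalIntegrable (by fun_prop) _ _)
        (Continuous.intervalIntegrable (by fun_prop) _ _)]
      ring
    rw [e]
    refine (abs_add_le _ _).trans ?_
    rw [abs_div, abs_two, abs_mul, abs_of_pos (by positivity : 0 < 1 / (2 * Real.pi))]
    have h2 : 1 / (2 * Real.pi) * |∫ θ in (0 : ℝ)..Real.pi,
        (f (2 * Real.cos θ) - g (2 * Real.cos θ))| ≤ 1 / (2 * Real.pi) * (η * Real.pi) :=
      mul_le_mul_of_nonneg_left h1 (by positivity)
    have h3 : 1 / (2 * Real.pi) * (η * Real.pi) = η / 2 := by field_simp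
    linarith

theorem normaliserLaw_C (k : ℕ) : normaliserLaw (fun x => (Chebyshev.C ℝ k).eval x) =
    Real.cos (k * (Real.pi / 2)) + if k = 0 then 1 else 0 := by
  unfold normaliserLaw
  have e0 : (Chebyshev.C ℝ k).eval 0 = 2 * Real.cos (k * (Real.pi / 2)) := by
    have := Chebyshev.C_two_mul_real_cos (Real.pi / 2) k
    rw [Real.cos_pi_div_two, mul_zero] at this
    rw [this]
    push_cast
    rfl
  have e : (∫ θ in (0 : ℝ)..Real.pi, (Chebyshev.C ℝ k).eval (2 * Real.cos θ)) =
      2 * ∫ θ in (0 : ℝ)..Real.pi, Real.cos ((k : ℤ) * θ) := by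
    rw [← intervalIntegral.integral_const_mul]
    congr 1
    funext θ
    rw [Chebyshev.C_two_mul_real_cos]
  beta_reduce
  rw [e0, e, int_cos]
  have hpi := Real.pi_pos
  by_cases h0 : k = 0
  · subst h0
    simp
    field_simp
  · rw [if_neg (by omega), if_neg h0]
    ring

/-- the law in the first case -/
theorem Tr.lawA (h : Tr t M) (h2 : cM M 2 = -1) (ho : ∀ m, cM M (2 * m + 1) = 0)
    (hA : ∀ k, 2 ≤ k → cM M (2 * k) = 0) {f : ℝ → ℝ} (hf : Continuous f) :
    Has (fun v => f (t v)) (satoTate f) := by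
  refine h.equi satoTate_mean (fun k => ?_) hf
  rw [satoTate_C]
  rcases Nat.even_or_odd' k with ⟨m, rfl | rfl⟩
  · by_cases h0 : m = 0
    · subst h0
      rw [mul_zero, if_pos rfl, cM_zero M h.zero]
      norm_num
    · by_cases h1 : m = 1
      · subst h1
        rw [mul_one, if_neg (by norm_num), if_pos rfl, h2]
        norm_num
      · rw [if_neg (by omega), if_neg (by omega), hA m (by omega)]
        norm_num
  · rw [if_neg (by omega), if_neg (by omega), ho]
    norm_num

/-- the law in the second case -/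
theorem Tr.lawD (h : Tr t M) (ho : ∀ m, cM M (2 * m + 1) = 0)
    (hD : ∀ k, 1 ≤ k → cM M (2 * k) = (-1) ^ k) {f : ℝ → ℝ} (hf : Continuous f) :
    Has (fun v => f (t v)) (normaliserLaw f) := by
  refine h.equi normaliserLaw_mean (fun k => ?_) hf
  rw [normaliserLaw_C]
  rcases Nat.even_or_odd' k with ⟨m, rfl | rfl⟩
  · have e : Real.cos ((2 * m : ℕ) * (Real.pi / 2)) = (-1) ^ m := by
      rw [← Real.cos_nat_mul_pi]
      congr 1
      push_cast
      ring
    rw [e]
    by_cases h0 : m = 0
    · subst h0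
      rw [mul_zero, if_pos rfl, cM_zero M h.zero]
      norm_num
    · rw [if_neg (by omega), hD m (by omega)]
      push_cast
      ring
  · have e : Real.cos ((2 * m + 1 : ℕ) * (Real.pi / 2)) = 0 := by
      rw [Real.cos_eq_zero_iff]
      exact ⟨m, by push_cast; ring⟩
    rw [e, if_neg (by omega), ho]
    norm_num

end Pool.Agent.X303.SC
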