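import Mathlib

/-! The Toeplitz form of a sequence of integers, on polynomials. -/

set_option autoImplicit false

namespace Pool.Agent.X303.SC

open Polynomial

/-- the distance of two natural numbers -/
def df (i j : ℕ) : ℕ := i - j + (j - i)

theorem df_comm (i j : ℕ) : df i j = df j i := by unfold df; omega

theorem df_add_left (k i j : ℕ) : df (k + i) (k + j) = df i j := by unfold df; omega

theorem df_mul (m i j : ℕ) : df (i * m) (j * m) = df i j * m := by
  unfold df
  rw [add_mul, Nat.sub_mul, Nat.sub_mul]

/-- the form -/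
noncomputable def bil (c : ℕ → ℤ) (P R : ℤ[X]) : ℤ :=
  P.sum fun i a => R.sum fun j b => a * b * c (df i j)

variable (c : ℕ → ℤ)

theorem bil_add_left (P P' R : ℤ[X]) : bil c (P + P') R = bil c P R + bil c P' R := by
  unfold bil
  refine sum_add_index P P' _ (fun i => ?_) (fun i a b => ?_)
  · simp [Polynomial.sum_def]
  · simp only [Polynomial.sum_def]
    rw [← Finset.sum_add_distrib]
    refine Finset.sum_congr rfl fun j _ => ?_
    ring

theorem bil_symm (P R : ℤ[X]) : bil c P R = bil c R P := by
  unfold bil
  simp only [Polynomial.sum_def]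
  rw [Finset.sum_comm]
  refine Finset.sum_congr rfl fun j _ => Finset.sum_congr rfl fun i _ => ?_
  rw [df_comm]
  ring

theorem bil_add_right (P R R' : ℤ[X]) : bil c P (R + R') = bil c P R + bil c P R' := by
  rw [bil_symm, bil_add_left, bil_symm c R, bil_symm c R']

theorem bil_mono (i j : ℕ) (a b : ℤ) :
    bil c (monomial i a) (monomial j b) = a * b * c (df i j) := by
  unfold bil
  rw [sum_monomial_index, sum_monomial_index]
  · ring
  · simp [Polynomial.sum_def]

theorem bil_zero_left (R : ℤ[X]) : bil c 0 R = 0 := by
  unfold bil; simp [Polynomial.sum_def]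

theorem bil_zero_right (R : ℤ[X]) : bil c R 0 = 0 := by
  rw [bil_symm, bil_zero_left]

theorem bil_sum_left {ι : Type*} (s : Finset ι) (f : ι → ℤ[X]) (R : ℤ[X]) :
    bil c (∑ k ∈ s, f k) R = ∑ k ∈ s, bil c (f k) R := by
  classical
  induction s using Finset.induction_on with
  | empty => rw [Finset.sum_empty, Finset.sum_empty, bil_zero_left]
  | insert a s ha ih => rw [Finset.sum_insert ha, Finset.sum_insert ha, bil_add_left, ih]

theorem bil_sum_right {ι : Type*} (s : Finset ι) (f : ι → ℤ[X]) (R : ℤ[X]) :
    bil c R (∑ k ∈ s, f k) = ∑ k ∈ s, bil c R (f k) := by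
  rw [bil_symm, bil_sum_left]
  exact Finset.sum_congr rfl fun k _ => bil_symm c _ _

theorem bil_neg_left (P R : ℤ[X]) : bil c (-P) R = -bil c P R := by
  have h := bil_add_left c (-P) P R
  rw [neg_add_cancel, bil_zero_left] at h
  omega

theorem bil_neg_right (P R : ℤ[X]) : bil c P (-R) = -bil c P R := by
  rw [bil_symm, bil_neg_left, bil_symm]

theorem bil_sub_sq (P R : ℤ[X]) :
    bil c (P - R) (P - R) = bil c P P - 2 * bil c P R + bil c R R := by
  rw [sub_eq_add_neg, bil_add_left, bil_add_right, bil_add_right, bil_neg_left, bil_neg_left,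
    bil_neg_right, bil_neg_right, bil_symm c R P]
  ring

theorem bil_add_sq (P R : ℤ[X]) :
    bil c (P + R) (P + R) = bil c P P + 2 * bil c P R + bil c R R := by
  rw [bil_add_left, bil_add_right, bil_add_right, bil_symm c R P]
  ring

/-- strict positivity -/
def Pos : Prop := ∀ P : ℤ[X], P ≠ 0 → 0 < bil c P P

/-- a bilinear map on polynomials which agrees on monomials -/
theorem bil_ext {B : ℤ[X] → ℤ[X] → ℤ} (hl : ∀ P P' R, B (P + P') R = B P R + B P' R)
    (hr : ∀ P R R', B P (R + R') = B P R + B P R')
    (h : ∀ i j a b, B (monomial i a) (monomial j b) = a * b * c (df i j)) (P R : ℤ[X]) :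
    B P R = bil c P R := by
  induction P using Polynomial.induction_on' with
  | add p q hp hq => rw [hl, bil_add_left, hp, hq]
  | monomial i a =>
    induction R using Polynomial.induction_on' with
    | add p q hp hq => rw [hr, bil_add_right, hp, hq]
    | monomial j b => rw [h, bil_mono]

/-- the subsequence of the multiples of `m` -/
theorem pos_mul {c : ℕ → ℤ} (h : Pos c) {m : ℕ} (hm : 0 < m) : Pos fun k => c (k * m) := by
  intro P hP
  have h1 : bil c (expand ℤ m P) (expand ℤ m P) = bil (fun k => c (k * m)) P P := by
    refine bil_ext (fun k => c (k * m)) (B := fun P R => bil c (expand ℤ m P) (expand ℤ m R))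
      (fun P P' R => ?_) (fun P R R' => ?_) (fun i j a b => ?_) P P
    · simp only [map_add, bil_add_left]
    · simp only [map_add, bil_add_right]
    · simp only [expand_monomial, bil_mono, df_mul]
  rw [← h1]
  exact h _ (by rwa [Ne, expand_eq_zero hm])

/-- the sequence with alternating signs -/
theorem pos_alt {c : ℕ → ℤ} (h : Pos c) : Pos fun k => (-1) ^ k * c k := by
  intro P hP
  have h1 : bil c (P.comp (-X)) (P.comp (-X)) = bil (fun k => (-1) ^ k * c k) P P := by
    refine bil_ext (fun k => (-1) ^ k * c k) (B := fun P R => bil c (P.comp (-X)) (R.comp (-X)))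
      (fun P P' R => ?_) (fun P R R' => ?_) (fun i j a b => ?_) P P
    · simp only [add_comp, bil_add_left]
    · simp only [add_comp, bil_add_right]
    · have e : ∀ (k : ℕ) (x : ℤ), (monomial k x : ℤ[X]).comp (-X) = monomial k ((-1) ^ k * x) := by
        intro k x
        rw [monomial_comp, neg_pow, ← C_mul_X_pow_eq_monomial, map_mul, map_pow, map_neg, map_one]
        ring
      simp only [e, bil_mono]
      have e2 : ((-1 : ℤ)) ^ i * (-1) ^ j = (-1) ^ (df i j) := by
        rw [← pow_add]
        unfold df
        rcases le_total i j with h | h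
        · obtain ⟨k, rfl⟩ := Nat.exists_eq_add_of_le h
          rw [show i - (i + k) + (i + k - i) = k by omega, show i + (i + k) = 2 * i + k by ring,
            pow_add, pow_mul]
          norm_num
        · obtain ⟨k, rfl⟩ := Nat.exists_eq_add_of_le h
          rw [show j + k - j + (j - (j + k)) = k by omega, show j + k + j = 2 * j + k by ring,
            pow_add, pow_mul]
          norm_num
      rw [← e2]
      ring
  rw [← h1]
  refine h _ fun h0 => hP ?_
  have h2 : (P.comp (-X)).comp (-X) = P := by
    rw [comp_assoc, neg_comp, X_comp, neg_neg, comp_X]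
  rw [← h2, h0, zero_comp]

end Pool.Agent.X303.SC
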