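import Pool.Agent.X303.SC.LawDefs

/-!
# Squares of Frobenius polynomials: definitions

`X` is a smooth projective variety over a number field `K`, of dimension `d`, such that `H^i(X)` has
dimension four, for example an abelian surface and `i = 1`.
-/

set_option autoImplicit false

namespace Pool.Agent.X303.SC

open NumberField IsDedekindDomain Filter Topology Polynomial
open Pool.Agent.W353.EF (IsFrobenius)
open Pool.Agent.W353.EH (edgePoint)

section
variable {K : Type} [Field K] [NumberField K] {l : ℕ} (X : Set (MvPolynomial (Fin l) (𝓞 K)))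
  (d i : ℕ)

/-- The characteristic polynomial of the geometric Frobenius at `v` on `H^i(X)`, of degree four, is the
square of the polynomial with the roots `γ_1, γ_2`: the eigenvalues are `γ_1, γ_1, γ_2, γ_2`. -/
def IsHalf (v : HeightOneSpectrum (𝓞 K)) (γ : Fin 2 → ℂ) : Prop :=
  ∃ α : Fin 4 → ℂ, IsFrobenius X d i v α ∧
    Finset.univ.val.map α = Finset.univ.val.map γ + Finset.univ.val.map γ

/-- The polynomials `B v` are the Euler factors of `L(W^{⊗ r}, s)`, where `W` is one half of `H^i(X)`: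
for almost all primes `v` the characteristic polynomial of Frobenius is the square of the polynomial
with the roots `γ_1, γ_2`, and `B_v(z) = ∏ (1 - γ_{f(1)} ⋯ γ_{f(r)} z)`, the product over all
`f : {1, …, r} → {1, 2}`; at the other primes `B v` is an arbitrary polynomial, and no factor
`1 / B_v(q_v^{-s})` has a pole at the edge `s = ri/2 + 1`. -/
def IsHalfPower (r : ℕ) (B : HeightOneSpectrum (𝓞 K) → ℂ[X]) : Prop :=
  (∀ᶠ v in cofinite, ∃ γ : Fin 2 → ℂ, IsHalf X d i v γ ∧
    ∀ z : ℂ, (B v).eval z = ∏ f : Fin r → Fin 2, (1 - (∏ j, γ (f j)) * z)) ∧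
  ∀ v, (B v).eval ((Ideal.absNorm v.asIdeal : ℂ) ^ (-edgePoint (r * i) 0)) ≠ 0

/-- For almost all primes `v` the eigenvalues of the geometric Frobenius on `H^i(X)` are
`γ_1, γ_1, γ_2, γ_2`, and `t v = q_v^(-i/2) (γ_1 + γ_2)`. -/
def IsHalfTrace (t : HeightOneSpectrum (𝓞 K) → ℝ) : Prop :=
  ∀ᶠ v in cofinite, ∃ γ : Fin 2 → ℂ, IsHalf X d i v γ ∧
    γ 0 + γ 1 = ((t v * (Ideal.absNorm v.asIdeal : ℝ) ^ ((i : ℝ) / 2) : ℝ) : ℂ)

end

end Pool.Agent.X303.SC
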