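import Pool.Agent.X303.SC.Rank2
import Pool.Agent.X303.SC.HalfDefs

/-! Squares of Frobenius polynomials. -/

set_option autoImplicit false

namespace Pool.Agent.X303.SC

open Complex Filter Topology NumberField IsDedekindDomain
  Pool.Agent.W401.Cheb Pool.Agent.W540.BE Pool.Agent.W353.L1 Polynomial
open Pool.Agent.H341R2 (lam lam_tendsto)
open Pool.Agent.W353.PV (tF Eig alp pick pick_spec)
open Pool.Agent.W353.EF (IsFrobenius LFun)
open Pool.Agent.W353.EH (edgePoint size HasOrder)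
open Pool.Agent.W353.AT (exists_common)
open Pool.Agent.Y139.SM (prods prods_sum prods_prod edge_gen one_artin RR_one RR_zero size_of_order)

variable {K : Type} [Field K] [NumberField K]

/-- **The sizes of the tensor powers of a system of eigenvalues.** -/
theorem gamma_size {b i r : ℕ} {t : HeightOneSpectrum (𝓞 K) → ℝ} {C : ℝ}
    (htb : ∀ v, |t v| ≤ C) {γ : HeightOneSpectrum (𝓞 K) → Fin b → ℂ}
    (hn : ∀ᶠ v in cofinite, ∀ j, ‖γ v j‖ = (nm K v : ℝ) ^ ((i : ℝ) / 2))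
    (ht : ∀ᶠ v in cofinite, ∑ j, γ v j = ((t v * (nm K v : ℝ) ^ ((i : ℝ) / 2) : ℝ) : ℂ))
    {B : HeightOneSpectrum (𝓞 K) → ℂ[X]}
    (hB : ∀ᶠ v in cofinite, ∀ z : ℂ, (B v).eval z = ∏ f : Fin r → Fin b,
      (1 - (∏ j, γ v (f j)) * z))
    (hB0 : ∀ v, (B v).eval ((Ideal.absNorm v.asIdeal : ℂ) ^ (-edgePoint (r * i) 0)) ≠ 0)
    {k : ℤ} (hk : HasOrder (r * i) 0 B k ∨ HasSize (r * i) B k) :
    Has (fun v => t v ^ r) (-(k : ℝ)) := by
  classical
  choose σ hσ using exists_isFrob (F := K)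
  obtain ⟨U, hUn, hU, hx1⟩ := exists_common (κ := Unit) (n := fun _ => 1)
    (fun _ => (1 : Representation ℂ (GK K) (Fin 1 → ℂ))) fun _ => one_artin
  have hx1 : ∀ u ∈ U, (1 : Representation ℂ (GK K) (Fin 1 → ℂ)) u = 1 := hx1 ()
  have hfin : Finite (GK K ⧸ U) := Subgroup.quotient_finite_of_isOpen U hU
  have hq0 : ∀ v : HeightOneSpectrum (𝓞 K), (0 : ℝ) < (nm K v : ℝ) := fun v => by
    have := Pool.Agent.W353.L1.nm_pos v
    exact_mod_cast this
  have hnorm : ∀ᶠ v in cofinite, ∀ j, ‖prods r (γ v) j‖ =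
      (nm K v : ℝ) ^ ((r : ℝ) * ((i : ℝ) / 2)) := by
    refine hn.mono fun v hv j => ?_
    unfold prods
    rw [norm_prod, Finset.prod_congr rfl fun i _ => hv _, Finset.prod_const, Finset.card_univ,
      Fintype.card_fin, mul_comm, Real.rpow_mul (hq0 v).le, Real.rpow_natCast]
  have hsum : ∀ᶠ v in cofinite, ∑ j, prods r (γ v) j =
      (((t v) ^ r : ℝ) : ℂ) *
        ((((nm K v : ℝ) ^ ((r : ℝ) * ((i : ℝ) / 2)) : ℝ)) : ℂ) := by
    filter_upwards [ht] with v hv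
    rw [prods_sum, hv, mul_comm (r : ℝ), Real.rpow_mul (hq0 v).le, Real.rpow_natCast]
    push_cast
    rw [mul_pow]
  have hreal : ∀ᶠ v in cofinite, (∑ j, prods r (γ v) j).im = 0 := by
    refine hsum.mono fun v hv => ?_
    rw [hv, ← Complex.ofReal_mul, Complex.ofReal_im]
  have hsz := size_corr ((r : ℝ) * ((i : ℝ) / 2)) (fun v => prods r (γ v)) hnorm hreal U
    (1 : Representation ℂ (GK K) (Fin 1 → ℂ)) hx1 0 B
    (hB.mono fun v hv g hg z => by
      rw [hv z, ← prods_prod (γ v) (fun y => 1 - y * z)]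
      refine Finset.prod_congr rfl fun j _ => ?_
      have e0 : (1 : Representation ℂ (GK K) (Fin 1 → ℂ)) g⁻¹ =
          (1 : Module.End ℂ (Fin 1 → ℂ)) := rfl
      have e1 : (1 : Module.End ℂ (Fin 1 → ℂ)) - (prods r (γ v) j * z) •
          ((1 : Representation ℂ (GK K) (Fin 1 → ℂ)) g⁻¹) =
          (1 - prods r (γ v) j * z) • (1 : Module.End ℂ (Fin 1 → ℂ)) := by
        rw [e0]
        refine LinearMap.ext fun x => ?_
        rw [LinearMap.sub_apply, LinearMap.smul_apply, LinearMap.smul_apply,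
          Module.End.one_apply]
        exact (by rw [sub_smul, one_smul] : x - (prods r (γ v) j * z) • x =
          ((1 : ℂ) - prods r (γ v) j * z) • x)
      rw [e1, LinearMap.det_smul]
      simp)
    (by
      rw [edge_gen]
      exact hB0) (LFun B) (fun s _ => rfl) σ hσ
  simp only [edge_gen] at hsz
  have htr : ∀ᶠ v in cofinite, tr ((r : ℝ) * ((i : ℝ) / 2)) (fun v => prods r (γ v)) v =
      (t v) ^ r := by
    filter_upwards [hnorm, hreal, hsum] with v h1 h2 h3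
    have h5 := tr_eq (w := (r : ℝ) * ((i : ℝ) / 2)) (α := fun v => prods r (γ v)) (v := v) h1 h2
    rw [h3] at h5
    have h7 : ((((nm K v : ℝ) ^ ((r : ℝ) * ((i : ℝ) / 2)) : ℝ)) : ℂ) *
        ((nm K v : ℕ) : ℂ) ^ (-((((r : ℝ) * ((i : ℝ) / 2) : ℝ)) : ℂ)) = 1 := by
      have hqC : ((nm K v : ℕ) : ℂ) ≠ 0 := by
        have := (hq0 v).ne'
        exact_mod_cast this
      rw [Complex.ofReal_cpow (hq0 v).le]
      have e : (((nm K v : ℝ)) : ℂ) = ((nm K v : ℕ) : ℂ) := by push_cast; rfl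
      rw [e, ← Complex.cpow_add _ _ hqC, add_neg_cancel, Complex.cpow_zero]
    rw [mul_assoc, h7, mul_one] at h5
    exact_mod_cast h5
  -- the mean of the trace of the library
  have hsize : Tendsto (size (r * i) 0 B) (𝓝[>] 0) (𝓝 (-(k : ℝ))) := by
    rcases hk with h | h
    · exact size_of_order hsz.1 h
    · exact h
  have hbt : ∀ v, |tr ((r : ℝ) * ((i : ℝ) / 2)) (fun v => prods r (γ v)) v| ≤ (b ^ r : ℕ) :=
    fun v => abs_tr_le _ _ _
  have h8 : Has (fun v => tr ((r : ℝ) * ((i : ℝ) / 2)) (fun v => prods r (γ v)) v)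
      (-(k : ℝ)) := by
    refine ⟨⟨_, hbt⟩, ?_⟩
    have h9 := hsz.2.add hsize
    rw [zero_add] at h9
    refine h9.congr fun ε => ?_
    have e : (fun v => ((tr ((r : ℝ) * ((i : ℝ) / 2)) (fun v => prods r (γ v)) v : ℂ) *
        ((1 : Representation ℂ (GK K) (Fin 1 → ℂ)).character (σ v)⁻¹ * zz 0 v)).re) =
        fun v => tr ((r : ℝ) * ((i : ℝ) / 2)) (fun v => prods r (γ v)) v := by
      funext v
      have h10 := RR_one σ v
      unfold RR at h10
      rw [Complex.re_ofReal_mul, h10, mul_one]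
    rw [e]
    unfold size
    ring
  exact has_cofinite h8 htr

variable {l : ℕ} {X : Set (MvPolynomial (Fin l) (𝓞 K))} {d i : ℕ}

/-- facts on one half -/
theorem IsHalf.facts (hi : i ≤ 2 * d) {v : HeightOneSpectrum (𝓞 K)} {γ : Fin 2 → ℂ}
    (h : IsHalf X d i v γ) :
    (∀ j, ‖γ j‖ = (nm K v : ℝ) ^ ((i : ℝ) / 2)) ∧
      ∑ j, γ j = ((tF X d i 4 K v / 2 * (nm K v : ℝ) ^ ((i : ℝ) / 2) : ℝ) : ℂ) := by
  obtain ⟨α, hα, hγ⟩ := h
  replace hα : Eig X d i v α := hα
  have h3 : Eig X d i v (alp X d i 4 K v) := pick_spec ⟨α, hα⟩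
  have h4 := hα.unique' hi h3
  refine ⟨fun j => ?_, ?_⟩
  · have h5 : γ j ∈ Finset.univ.val.map α := by
      rw [hγ]
      exact Multiset.mem_add.2 (Or.inl (Multiset.mem_map.2 ⟨j, Finset.mem_univ_val j, rfl⟩))
    obtain ⟨j', -, h6⟩ := Multiset.mem_map.1 h5
    rw [← h6, hα.norm j']
    rfl
  · have hsum : ∑ j, alp X d i 4 K v j = ∑ j, γ j + ∑ j, γ j := by
      have h5 := congrArg Multiset.sum (h4.symm.trans hγ)
      rw [Multiset.sum_add] at h5
      exact h5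
    have h6 := tr_eq (w := (i : ℝ) / 2) (α := alp X d i 4 K) (v := v) (fun j => h3.norm j) (h3.im hi)
    have hq : (0 : ℝ) < (nm K v : ℝ) := by exact_mod_cast nm_pos v
    have hqC : ((nm K v : ℕ) : ℂ) ≠ 0 := by
      have := hq.ne'
      exact_mod_cast this
    have h7 : ((tF X d i 4 K v : ℝ) : ℂ) * ((((nm K v : ℝ) ^ ((i : ℝ) / 2) : ℝ)) : ℂ) =
        ∑ j, γ j + ∑ j, γ j := by
      rw [← hsum]
      have h8 : ((tF X d i 4 K v : ℝ) : ℂ) = (∑ j, alp X d i 4 K v j) *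
        ((nm K v : ℕ) : ℂ) ^ (-(((i : ℝ) / 2 : ℝ) : ℂ)) := h6
      rw [h8, mul_assoc, Complex.ofReal_cpow hq.le]
      have e : (((nm K v : ℝ)) : ℂ) = ((nm K v : ℕ) : ℂ) := by push_cast; rfl
      rw [e, ← Complex.cpow_add _ _ hqC, neg_add_cancel, Complex.cpow_zero, mul_one]
    push_cast at h7 ⊢
    linear_combination (-1 / 2 : ℂ) * h7

/-- **The alternative for squares of Frobenius polynomials.** -/
theorem halfAlternative (hi : i ≤ 2 * d) {t : HeightOneSpectrum (𝓞 K) → ℝ}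
    (ht : IsHalfTrace X d i t) {k : ℕ → ℤ}
    (hk : ∀ r, 1 ≤ r → ∃ B : HeightOneSpectrum (𝓞 K) → ℂ[X], IsHalfPower X d i r B ∧
      (HasOrder (r * i) 0 B (k r) ∨ HasSize (r * i) B (k r))) (h2 : -1 ≤ k 2) :
    ((∀ m, k (2 * m + 1) = 0) ∧ (∀ m, 1 ≤ m → k (2 * m) = -(catalan m : ℤ)) ∧
      ∀ f : ℝ → ℝ, Continuous f → HasMean (fun v => f (t v)) (satoTate f)) ∨
    ((∀ m, k (2 * m + 1) = 0) ∧ (∀ m, 1 ≤ m → 2 * k (2 * m) = -(m.centralBinom : ℤ)) ∧
      ∀ f : ℝ → ℝ, Continuous f → HasMean (fun v => f (t v)) (normaliserLaw f)) ∨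
    ∃ n : ℕ, 1 ≤ n ∧ ∀ δ : ℝ, 0 < δ →
      DensityZero {v | ∀ j : ℤ, δ ≤ |t v - 2 * Real.cos (2 * Real.pi * j / n)|} := by
  classical
  set T : HeightOneSpectrum (𝓞 K) → ℝ := fun v => tF X d i 4 K v / 2 with hT
  have hTb : ∀ v, |T v| ≤ 2 := by
    intro v
    have h5 := abs_tr_le (F := K) ((i : ℝ) / 2) (alp X d i 4 K) v
    have h6 : |tF X d i 4 K v| ≤ (4 : ℕ) := h5
    rw [hT]
    simp only
    rw [abs_div, abs_two]
    push_cast at h6
    linarith
  set M : ℕ → ℤ := fun r => if r = 0 then 1 else -k r with hM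
  have hTr : Tr T M := by
    refine ⟨hTb, fun r => ?_⟩
    by_cases hr : r = 0
    · subst hr
      refine has_one.congr (fun v => by rw [pow_zero]) ?_
      rw [hM]
      norm_num
    · obtain ⟨B, hB, hkB⟩ := hk r (by omega)
      set γ : HeightOneSpectrum (𝓞 K) → Fin 2 → ℂ := fun v =>
        pick fun γ => IsHalf X d i v γ ∧
          ∀ z : ℂ, (B v).eval z = ∏ f : Fin r → Fin 2, (1 - (∏ j, γ (f j)) * z) with hγ
      have hg : ∀ᶠ v in cofinite, IsHalf X d i v (γ v) ∧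
          ∀ z : ℂ, (B v).eval z = ∏ f : Fin r → Fin 2, (1 - (∏ j, γ v (f j)) * z) :=
        hB.1.mono fun v hv => pick_spec hv
      refine (gamma_size (b := 2) (i := i) (r := r) hTb (γ := γ)
        (hg.mono fun v hv => (hv.1.facts hi).1) (hg.mono fun v hv => (hv.1.facts hi).2)
        (hg.mono fun v hv => hv.2) hB.2 hkB).congr (fun v => rfl) ?_
      rw [hM]
      simp only [if_neg hr]
      push_cast
      rfl
  have hM2 : M 2 ≤ 1 := by
    rw [hM]
    simp only [if_neg (by norm_num : (2 : ℕ) ≠ 0)]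
    omega
  have hte : ∀ᶠ v in cofinite, T v = t v := by
    refine ht.mono fun v hv => ?_
    obtain ⟨γ, h5, h6⟩ := hv
    have h7 := (h5.facts hi).2
    rw [Fin.sum_univ_two, h6] at h7
    have hq : (0 : ℝ) < (nm K v : ℝ) := by exact_mod_cast nm_pos v
    have h8 : t v * (nm K v : ℝ) ^ ((i : ℝ) / 2) = T v * (nm K v : ℝ) ^ ((i : ℝ) / 2) := by
      exact_mod_cast h7
    exact (mul_right_cancel₀ (by positivity) h8).symm
  have hMk : ∀ r, 1 ≤ r → k r = -M r := by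
    intro r hr
    rw [hM]
    simp only [if_neg (show r ≠ 0 by omega)]
    ring
  have hmean : ∀ {f : ℝ → ℝ} {m : ℝ}, Has (fun v => f (T v)) m →
      HasMean (fun v => f (t v)) m := fun {f m} h =>
    hasMean_of_has (has_cofinite h (hte.mono fun v hv => by rw [hv]))
  rcases hTr.trichotomy hM2 with ⟨n, hn1, hn⟩ | ⟨h2', ho, hAD⟩
  · right; right
    refine ⟨n, hn1, fun δ hδ => ?_⟩
    refine hasMean_of_has (has_cofinite (hTr.near hn1 hn hδ) (hte.mono fun v hv => ?_))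
    simp only [Set.mem_ofPred_eq, hv]
  · have hodd : ∀ m, k (2 * m + 1) = 0 := fun m => by
      rw [hMk _ (by omega), odd_moment ho, neg_zero]
    rcases hAD with hA | hD
    · left
      refine ⟨hodd, fun m hm => ?_, fun f hf => hmean (hTr.lawA h2' ho hA hf)⟩
      rw [hMk _ (by omega), even_A (cM_zero M hTr.zero) h2' hA]
    · right; left
      refine ⟨hodd, fun m hm => ?_, fun f hf => hmean (hTr.lawD ho hD hf)⟩
      have := even_D (cM_zero M hTr.zero) hD hm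
      rw [hMk _ (by omega)]
      linarith

end Pool.Agent.X303.SC
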