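import Pool.Agent.X303.SC.Two

/-! Chebyshev moments of a sequence of integers. -/

set_option autoImplicit false

namespace Pool.Agent.X303.SC

open Polynomial

/-- the functional with moments `M` -/
noncomputable def LZ (M : ℕ → ℤ) (P : ℤ[X]) : ℤ := P.sum fun r a => a * M r

variable (M : ℕ → ℤ)

theorem LZ_add (P R : ℤ[X]) : LZ M (P + R) = LZ M P + LZ M R :=
  sum_add_index P R _ (fun i => by rw [zero_mul]) (fun i a b => by rw [add_mul])

theorem LZ_monomial (r : ℕ) (a : ℤ) : LZ M (monomial r a) = a * M r :=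
  sum_monomial_index _ _ (by rw [zero_mul])

theorem LZ_X_pow (r : ℕ) : LZ M (X ^ r) = M r := by
  rw [← monomial_one_right_eq_X_pow, LZ_monomial, one_mul]

/-- the Chebyshev moments -/
noncomputable def cM (k : ℕ) : ℤ := LZ M (Chebyshev.C ℤ k)

theorem LZ_C (k : ℤ) : LZ M (Chebyshev.C ℤ k) = cM M k.natAbs := by
  rw [cM, Chebyshev.C_natAbs]

theorem LZ_neg (P : ℤ[X]) : LZ M (-P) = -LZ M P := by
  have h := LZ_add M (-P) P
  have h0 : LZ M 0 = 0 := by
    have := LZ_monomial M 0 0
    rwa [map_zero, zero_mul] at this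
  rw [neg_add_cancel, h0] at h
  omega

theorem cM_zero (h : M 0 = 1) : cM M 0 = 2 := by
  rw [cM, Nat.cast_zero, Chebyshev.C_zero]
  have : (2 : ℤ[X]) = monomial 0 2 := rfl
  rw [this, LZ_monomial, h]
  norm_num

theorem cM_one : cM M 1 = M 1 := by
  rw [cM, Nat.cast_one, Chebyshev.C_one]
  have := LZ_X_pow M 1
  rwa [pow_one] at this

theorem cM_two (h : M 0 = 1) : cM M 2 = M 2 - 2 := by
  rw [cM]
  have e : ((2 : ℕ) : ℤ) = 2 := rfl
  rw [e, Chebyshev.C_two, sub_eq_add_neg, LZ_add, LZ_neg, LZ_X_pow]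
  have : (2 : ℤ[X]) = monomial 0 2 := rfl
  rw [this, LZ_monomial, h]
  ring

theorem LZ_pow_C (r : ℕ) : ∀ k : ℤ, LZ M (X ^ r * Chebyshev.C ℤ k) =
    ∑ j ∈ Finset.range (r + 1), (r.choose j : ℤ) * cM M (k + r - 2 * j).natAbs := by
  induction r with
  | zero =>
    intro k
    rw [Finset.sum_range_one, pow_zero, one_mul, LZ_C]
    simp
  | succ r ih =>
    intro k
    have e : X ^ (r + 1) * Chebyshev.C ℤ k =
        X ^ r * Chebyshev.C ℤ (k + 1) + X ^ r * Chebyshev.C ℤ (k - 1) := by
      rw [Chebyshev.C_add_one]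
      ring
    rw [e, LZ_add, ih, ih, Finset.sum_choose_succ_mul (fun j _ =>
      cM M (k + (r + 1 : ℕ) - 2 * (j : ℕ)).natAbs) r]
    congr 1
    · refine Finset.sum_congr rfl fun j _ => ?_
      congr 3
      push_cast
      ring
    · refine Finset.sum_congr rfl fun j _ => ?_
      congr 3
      push_cast
      ring

theorem two_moment (r : ℕ) : 2 * M r =
    ∑ j ∈ Finset.range (r + 1), (r.choose j : ℤ) * cM M ((r : ℤ) - 2 * j).natAbs := by
  have h := LZ_pow_C M r 0
  rw [Chebyshev.C_zero, mul_two, LZ_add, LZ_X_pow] at h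
  rw [two_mul, h]
  refine Finset.sum_congr rfl fun j _ => ?_
  rw [zero_add]

variable {M}

theorem odd_moment (h : ∀ m, cM M (2 * m + 1) = 0) (m : ℕ) : M (2 * m + 1) = 0 := by
  have h1 := two_moment M (2 * m + 1)
  rw [Finset.sum_eq_zero] at h1
  · omega
  · intro j _
    have : ∃ k, (((2 * m + 1 : ℕ) : ℤ) - 2 * j).natAbs = 2 * k + 1 :=
      ⟨((m : ℤ) - j).natAbs - (if (m : ℤ) < j then 1 else 0), by split_ifs <;> omega⟩
    obtain ⟨k, hk⟩ := this
    rw [hk, h, mul_zero]

theorem even_A (h0 : cM M 0 = 2) (h2 : cM M 2 = -1) (hA : ∀ k, 2 ≤ k → cM M (2 * k) = 0) (m : ℕ) :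
    M (2 * m) = catalan m := by
  have h1 := two_moment M (2 * m)
  have e : ∀ j ∈ Finset.range (2 * m + 1), ((2 * m).choose j : ℤ) *
      cM M (((2 * m : ℕ) : ℤ) - 2 * j).natAbs =
      (if j = m then 2 * ((2 * m).choose j : ℤ) else 0) -
        (if j = m + 1 then ((2 * m).choose j : ℤ) else 0) -
        (if j + 1 = m then ((2 * m).choose j : ℤ) else 0) := by
    intro j _
    by_cases hj : j = m
    · rw [if_pos hj, if_neg (by omega), if_neg (by omega), hj]
      have : (((2 * m : ℕ) : ℤ) - 2 * m).natAbs = 0 := by omega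
      rw [this, h0]
      ring
    · rw [if_neg hj]
      by_cases hj1 : j = m + 1
      · rw [if_pos hj1, if_neg (by omega)]
        have : (((2 * m : ℕ) : ℤ) - 2 * j).natAbs = 2 := by omega
        rw [this, h2]
        ring
      · rw [if_neg hj1]
        by_cases hj2 : j + 1 = m
        · rw [if_pos hj2]
          have : (((2 * m : ℕ) : ℤ) - 2 * j).natAbs = 2 := by omega
          rw [this, h2]
          ring
        · rw [if_neg hj2]
          have : (((2 * m : ℕ) : ℤ) - 2 * j).natAbs = 2 * ((m : ℤ) - j).natAbs := by omega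
          rw [this, hA _ (by omega)]
          ring
  rw [Finset.sum_congr rfl e, Finset.sum_sub_distrib, Finset.sum_sub_distrib,
    Finset.sum_ite_eq', if_pos (Finset.mem_range.2 (by omega))] at h1
  rcases Nat.eq_zero_or_pos m with rfl | hm
  · simp at h1
    simp
    omega
  · have e2 : ∑ j ∈ Finset.range (2 * m + 1),
        (if j + 1 = m then ((2 * m).choose j : ℤ) else 0) = ((2 * m).choose (m - 1) : ℤ) := by
      rw [Finset.sum_eq_single (m - 1)]
      · rw [if_pos (by omega)]
      · intro b _ hb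
        rw [if_neg (by omega)]
      · intro hb
        exact absurd (Finset.mem_range.2 (by omega)) hb
    rw [e2, Finset.sum_ite_eq', if_pos (Finset.mem_range.2 (by omega))] at h1
    have e3 : (2 * m).choose (m - 1) = (2 * m).choose (m + 1) := by
      rw [← Nat.choose_symm (show m - 1 ≤ 2 * m by omega)]
      congr 1
      omega
    rw [e3] at h1
    have e4 := Nat.choose_succ_right_eq (2 * m) m
    have e5 := succ_mul_catalan_eq_centralBinom m
    rw [Nat.centralBinom_eq_two_mul_choose] at e5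
    have e6 : 2 * m - m = m := by omega
    rw [e6] at e4
    have e4' : ((2 * m).choose (m + 1) : ℤ) * (m + 1) = ((2 * m).choose m : ℤ) * m := by
      exact_mod_cast e4
    have e5' : ((m : ℤ) + 1) * (catalan m : ℤ) = ((2 * m).choose m : ℤ) := by exact_mod_cast e5
    have e7 : M (2 * m) = ((2 * m).choose m : ℤ) - ((2 * m).choose (m + 1) : ℤ) := by omega
    have h8 : ((m : ℤ) + 1) * M (2 * m) = ((m : ℤ) + 1) * (catalan m : ℤ) := by
      rw [e7, e5']
      linear_combination (-1 : ℤ) * e4'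
    exact mul_left_cancel₀ (by positivity) h8

theorem even_D (h0 : cM M 0 = 2) (hD : ∀ k, 1 ≤ k → cM M (2 * k) = (-1) ^ k) {m : ℕ}
    (hm : 1 ≤ m) : 2 * M (2 * m) = Nat.centralBinom m := by
  have h1 := two_moment M (2 * m)
  have e : ∀ j ∈ Finset.range (2 * m + 1), ((2 * m).choose j : ℤ) *
      cM M (((2 * m : ℕ) : ℤ) - 2 * j).natAbs =
      (-1) ^ m * ((-1) ^ j * ((2 * m).choose j : ℤ)) +
        (if j = m then ((2 * m).choose j : ℤ) else 0) := by
    intro j _
    by_cases hj : j = m
    · rw [if_pos hj, hj]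
      have : (((2 * m : ℕ) : ℤ) - 2 * m).natAbs = 0 := by omega
      have h2 : ((-1 : ℤ)) ^ m * (-1) ^ m = 1 := by rw [← mul_pow]; norm_num
      rw [this, h0, ← mul_assoc, h2]
      ring
    · rw [if_neg hj, add_zero]
      have h3 : (((2 * m : ℕ) : ℤ) - 2 * j).natAbs = 2 * ((m : ℤ) - j).natAbs := by omega
      rw [h3, hD _ (by omega)]
      have h4 : ((-1 : ℤ)) ^ ((m : ℤ) - j).natAbs = (-1) ^ m * (-1) ^ j := by
        rw [← pow_add]
        rcases le_total m j with h | h
        · obtain ⟨k, rfl⟩ := Nat.exists_eq_add_of_le h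
          have h5 : ((m : ℤ) - ((m + k : ℕ) : ℤ)).natAbs = k := by omega
          rw [h5, show m + (m + k) = 2 * m + k by ring, pow_add, pow_mul]
          norm_num
        · obtain ⟨k, rfl⟩ := Nat.exists_eq_add_of_le h
          have h5 : (((j + k : ℕ) : ℤ) - (j : ℤ)).natAbs = k := by omega
          rw [h5, show j + k + j = 2 * j + k by ring, pow_add, pow_mul]
          norm_num
      rw [h4]
      ring
  rw [Finset.sum_congr rfl e, Finset.sum_add_distrib, ← Finset.mul_sum,
    Int.alternating_sum_range_choose_of_ne (by omega), mul_zero, zero_add,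
    Finset.sum_ite_eq', if_pos (Finset.mem_range.2 (by omega))] at h1
  rw [h1, Nat.centralBinom_eq_two_mul_choose]

end Pool.Agent.X303.SC
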