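import Pool.Agent.X303.SC.Mean
import Pool.Agent.X303.SC.Mom

/-! Functions on the primes with integral moments. -/

set_option autoImplicit false

namespace Pool.Agent.X303.SC

open Filter Topology NumberField IsDedekindDomain Pool.Agent.W353.L1 Polynomial

variable {K : Type} [Field K] [NumberField K]

/-- `t` has values in `[-2, 2]` and the integral moments `M` -/
def Tr (t : HeightOneSpectrum (𝓞 K) → ℝ) (M : ℕ → ℤ) : Prop :=
  (∀ v, |t v| ≤ 2) ∧ ∀ r, Has (fun v => t v ^ r) (M r)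

variable {t : HeightOneSpectrum (𝓞 K) → ℝ} {M : ℕ → ℤ}

theorem Tr.zero (h : Tr t M) : M 0 = 1 := by
  have h1 := h.2 0
  simp only [pow_zero] at h1
  have h2 := has_unique h1 has_one
  exact_mod_cast h2

theorem Tr.angle (h : Tr t M) (v : HeightOneSpectrum (𝓞 K)) :
    ∃ θ : ℝ, 0 ≤ θ ∧ θ ≤ Real.pi ∧ t v = 2 * Real.cos θ := by
  have h1 := abs_le.1 (h.1 v)
  refine ⟨Real.arccos (t v / 2), Real.arccos_nonneg _, Real.arccos_le_pi _, ?_⟩
  rw [Real.cos_arccos (by linarith) (by linarith)]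
  ring

/-- means of polynomials -/
theorem Tr.poly (h : Tr t M) (P : ℤ[X]) :
    Has (fun v => (P.map (Int.castRingHom ℝ)).eval (t v)) (LZ M P) := by
  induction P using Polynomial.induction_on' with
  | add p q hp hq =>
    refine (hp.add hq).congr (fun v => ?_) ?_
    · rw [Polynomial.map_add, eval_add]
    · rw [LZ_add]
      push_cast
      rfl
  | monomial r a =>
    refine ((h.2 r).const_mul (a : ℝ)).congr (fun v => ?_) ?_
    · rw [map_monomial, eval_monomial]
      rfl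
    · rw [LZ_monomial]
      push_cast
      rfl

theorem Tr.cheb (h : Tr t M) (k : ℕ) :
    Has (fun v => (Chebyshev.C ℝ k).eval (t v)) (cM M k) := by
  refine (h.poly (Chebyshev.C ℤ k)).congr (fun v => ?_) rfl
  rw [Chebyshev.map_C]

/-- the mean of the square of the absolute value of a polynomial on the circle -/
theorem Tr.form (h : Tr t M) (P : ℤ[X]) :
    Has (fun v => ∑ i ∈ P.support, ∑ j ∈ P.support,
      ((P.coeff i : ℝ) * P.coeff j) * (Chebyshev.C ℝ (df i j : ℕ)).eval (t v))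
      (bil (cM M) P P) := by
  have h1 := has_sum (K := K) P.support (φ := fun i v => ∑ j ∈ P.support,
      ((P.coeff i : ℝ) * P.coeff j) * (Chebyshev.C ℝ (df i j : ℕ)).eval (t v))
    (m := fun i => ∑ j ∈ P.support, ((P.coeff i : ℝ) * P.coeff j) * (cM M (df i j) : ℝ))
    fun i _ => has_sum _ fun j _ => (h.cheb (df i j)).const_mul _
  refine h1.congr (fun v => rfl) ?_
  unfold bil
  simp only [Polynomial.sum_def]
  push_cast
  rfl

theorem form_nonneg (h : Tr t M) (P : ℤ[X]) (v : HeightOneSpectrum (𝓞 K)) :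
    0 ≤ ∑ i ∈ P.support, ∑ j ∈ P.support,
      ((P.coeff i : ℝ) * P.coeff j) * (Chebyshev.C ℝ (df i j : ℕ)).eval (t v) := by
  obtain ⟨θ, -, -, hθ⟩ := h.angle v
  have e : ∑ i ∈ P.support, ∑ j ∈ P.support,
      ((P.coeff i : ℝ) * P.coeff j) * (Chebyshev.C ℝ (df i j : ℕ)).eval (t v) =
      2 * ((∑ i ∈ P.support, (P.coeff i : ℝ) * Real.cos (i * θ)) ^ 2 +
        (∑ i ∈ P.support, (P.coeff i : ℝ) * Real.sin (i * θ)) ^ 2) := by
    rw [sq, sq, Finset.sum_mul_sum, Finset.sum_mul_sum, ← Finset.sum_add_distrib, Finset.mul_sum]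
    refine Finset.sum_congr rfl fun i _ => ?_
    rw [← Finset.sum_add_distrib, Finset.mul_sum]
    refine Finset.sum_congr rfl fun j _ => ?_
    rw [hθ, Chebyshev.C_two_mul_real_cos]
    have e1 : Real.cos (((df i j : ℕ) : ℤ) * θ) = Real.cos (i * θ) * Real.cos (j * θ) +
        Real.sin (i * θ) * Real.sin (j * θ) := by
      rw [← Real.cos_sub, ← sub_mul]
      unfold df
      rcases le_total i j with hij | hij
      · obtain ⟨k, rfl⟩ := Nat.exists_eq_add_of_le hij
        rw [show i - (i + k) + (i + k - i) = k by omega, ← Real.cos_neg]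
        congr 1
        push_cast
        ring
      · obtain ⟨k, rfl⟩ := Nat.exists_eq_add_of_le hij
        rw [show j + k - j + (j - (j + k)) = k by omega]
        congr 1
        push_cast
        ring
    rw [e1]
    ring
  rw [e]
  positivity

theorem Tr.psd (h : Tr t M) (P : ℤ[X]) : 0 ≤ bil (cM M) P P := by
  have := has_nonneg (h.form P) (form_nonneg h P)
  exact_mod_cast this

/-- degenerate: the traces accumulate at roots of unity -/
theorem Tr.fin (h : Tr t M) {n : ℕ} (hn : cM M n = 2) :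
    Has (fun v => 2 - (Chebyshev.C ℝ n).eval (t v)) 0 := by
  refine ((has_const 2).add ((h.cheb n).const_mul (-1))).congr (fun v => by ring) ?_
  rw [hn]
  norm_num

open Classical in
theorem Tr.near (h : Tr t M) {n : ℕ} (hn1 : 1 ≤ n) (hn : cM M n = 2) {δ : ℝ} (hδ : 0 < δ) :
    Has (fun v => if v ∈ {v | ∀ k : ℤ, δ ≤ |t v - 2 * Real.cos (2 * Real.pi * k / n)|} then
      (1 : ℝ) else 0) 0 := by
  set S : Set ℝ := Set.Icc (-2) 2 ∩ ⋂ k : ℤ, {x | δ ≤ |x - 2 * Real.cos (2 * Real.pi * k / n)|}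
    with hS
  have hSc : IsCompact S := by
    refine isCompact_Icc.inter_right (isClosed_iInter fun k => ?_)
    exact isClosed_le continuous_const (by fun_prop)
  have hn0 : (0 : ℝ) < n := by exact_mod_cast hn1
  have hpos : ∀ x ∈ S, 0 < 2 - (Chebyshev.C ℝ n).eval x := by
    intro x hx
    obtain ⟨⟨h1, h2⟩, h3⟩ := hx
    rw [Set.mem_iInter] at h3
    set θ := Real.arccos (x / 2) with hθ
    have hx' : x = 2 * Real.cos θ := by
      rw [hθ, Real.cos_arccos (by linarith) (by linarith)]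
      ring
    rw [hx', Chebyshev.C_two_mul_real_cos]
    have h4 : Real.cos (((n : ℕ) : ℤ) * θ) ≤ 1 := Real.cos_le_one _
    rcases lt_or_eq_of_le h4 with h5 | h5
    · linarith
    · exfalso
      obtain ⟨k, hk⟩ := (Real.cos_eq_one_iff _).1 h5
      have h6 : δ ≤ |x - 2 * Real.cos (2 * Real.pi * k / n)| := h3 k
      have h7 : 2 * Real.pi * k / n = θ := by
        rw [div_eq_iff hn0.ne']
        push_cast at hk
        linarith
      rw [h7, hx', sub_self, abs_zero] at h6
      linarith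
  obtain ⟨κ, hκ, hκS⟩ : ∃ κ : ℝ, 0 < κ ∧ ∀ x ∈ S, κ ≤ 2 - (Chebyshev.C ℝ n).eval x := by
    rcases S.eq_empty_or_nonempty with he | hne
    · exact ⟨1, one_pos, fun x hx => by rw [he] at hx; exact absurd hx (Set.notMem_empty x)⟩
    · obtain ⟨x₀, hx₀, hmin⟩ := hSc.exists_isMinOn hne
        (f := fun x => 2 - (Chebyshev.C ℝ n).eval x) (by fun_prop)
      exact ⟨_, hpos x₀ hx₀, fun x hx => hmin hx⟩
  refine has_dom (h.fin hn) (fun v => by split_ifs <;> norm_num) (C := κ⁻¹) fun v => ?_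
  have h8 : 0 ≤ 2 - (Chebyshev.C ℝ n).eval (t v) := by
    obtain ⟨θ, -, -, hθ⟩ := h.angle v
    rw [hθ, Chebyshev.C_two_mul_real_cos]
    linarith [Real.cos_le_one (((n : ℕ) : ℤ) * θ)]
  split_ifs with hv
  · have h9 : t v ∈ S := ⟨abs_le.1 (h.1 v), Set.mem_iInter.2 fun k => hv k⟩
    have h10 := hκS _ h9
    rw [inv_mul_eq_div, le_div_iff₀ hκ]
    linarith
  · positivity

/-- **The trichotomy.** -/
theorem Tr.trichotomy (h : Tr t M) (h2 : M 2 ≤ 1) :
    (∃ n, 1 ≤ n ∧ cM M n = 2) ∨ (cM M 2 = -1 ∧ (∀ m, cM M (2 * m + 1) = 0) ∧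
      ((∀ k, 2 ≤ k → cM M (2 * k) = 0) ∨ ∀ k, 1 ≤ k → cM M (2 * k) = (-1) ^ k)) := by
  have h0 := cM_zero M h.zero
  by_cases hp : Pos (cM M)
  · right
    have h3 : cM M 2 = -1 := by
      have h4 := cM_two M h.zero
      rcases bound hp h0 2 (by norm_num) with h5 | h5 | h5 <;> omega
    exact ⟨h3, rank_two hp h0 h3⟩
  · exact Or.inl (degenerate h.psd h0 hp)

end Pool.Agent.X303.SC
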