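import Pool.Agent.Y139.SM.GDefs

/-!
# Mean values over the primes and laws of the traces: definitions

`X` is a smooth projective variety over a number field `K`, of dimension `d`, and `N` is its `i`-th
Betti number.
-/

set_option autoImplicit false

namespace Pool.Agent.X303.SC

open NumberField IsDedekindDomain Filter Topology Polynomial
open Pool.Agent.W353.EF (IsFrobenius)
open Pool.Agent.W353.EH (size)

section
variable {K : Type} [Field K] [NumberField K]

/-- The function `φ` on the primes of `K` has the mean value `m`: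
`(∑_v φ(v) q_v^(-1-ε)) / log(1/ε)` tends to `m` as `ε → 0+`, where `q_v` is the norm of `v`.  The
constant function `1` has the mean value `1`. -/
def HasMean (φ : HeightOneSpectrum (𝓞 K) → ℝ) (m : ℝ) : Prop :=
  Tendsto (fun ε : ℝ => (∑' v, φ v * (Ideal.absNorm v.asIdeal : ℝ) ^ (-(1 + ε))) /
    Real.log (1 / ε)) (𝓝[>] 0) (𝓝 m)

open Classical in
/-- The set `S` of primes has Dirichlet density zero. -/
def DensityZero (S : Set (HeightOneSpectrum (𝓞 K))) : Prop :=
  HasMean (fun v => if v ∈ S then 1 else 0) 0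

/-- For almost all primes `v`, `t v` is the normalised trace of Frobenius on `H^i(X)`: it is
`q_v^(-i/2) ∑ α_j` for the eigenvalues `α_1, …, α_N` of the geometric Frobenius. -/
def IsTrace {l : ℕ} (X : Set (MvPolynomial (Fin l) (𝓞 K))) (d i N : ℕ)
    (t : HeightOneSpectrum (𝓞 K) → ℝ) : Prop :=
  ∀ᶠ v in cofinite, ∃ α : Fin N → ℂ, IsFrobenius X d i v α ∧
    ∑ j, α j = ((t v * (Ideal.absNorm v.asIdeal : ℝ) ^ ((i : ℝ) / 2) : ℝ) : ℂ)

/-- The quotients `log |L(j/2 + 1 + ε)| / log(1/ε)` for the Euler product with the factors `B` tend to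
`-k` as `ε → 0+`.  This holds if there is a meromorphic continuation of the Euler product to a
neighbourhood of `j/2 + 1`, of order `k` at this point. -/
def HasSize (j : ℕ) (B : HeightOneSpectrum (𝓞 K) → ℂ[X]) (k : ℤ) : Prop :=
  Tendsto (size j 0 B) (𝓝[>] 0) (𝓝 (-(k : ℝ)))

end

/-- The mean value of `f` for the Sato–Tate law: the integral of `f(2 cos θ)` over `[0, π]` for the
measure `(2/π) sin² θ dθ`. -/
noncomputable def satoTate (f : ℝ → ℝ) : ℝ :=
  2 / Real.pi * ∫ θ in (0 : ℝ)..Real.pi, f (2 * Real.cos θ) * Real.sin θ ^ 2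

/-- The mean value of `f` for the law of the normaliser of a torus: half of the value at `0` and half
of the mean value of `f(2 cos θ)` over `[0, π]`. -/
noncomputable def normaliserLaw (f : ℝ → ℝ) : ℝ :=
  f 0 / 2 + 1 / (2 * Real.pi) * ∫ θ in (0 : ℝ)..Real.pi, f (2 * Real.cos θ)

end Pool.Agent.X303.SC
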