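import Pool.Agent.X303.SC.LawDefs
import Pool.Agent.Y139.SM.Rigid2
import Pool.Agent.Y139.SM.Fin2

/-! Mean values over the primes. -/

set_option autoImplicit false

namespace Pool.Agent.X303.SC

open Complex Filter Topology NumberField IsDedekindDomain
  Pool.Agent.W401.Cheb Pool.Agent.W540.BE Pool.Agent.W353.L1 Polynomial
open Pool.Agent.H341R2 (lam lam_tendsto lam_bounded)
open Pool.Agent.W353.PV (tF Eig alp pick_spec)
open Pool.Agent.W353.EF (IsFrobenius)

variable {K : Type} [Field K] [NumberField K]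

theorem has_zero : Has (F := K) (fun _ => 0) 0 := by
  refine (has_one.const_mul 0).congr (fun _ => ?_) ?_
  · ring
  · ring

theorem has_const (c : ℝ) : Has (F := K) (fun _ => c) c := by
  refine (has_one.const_mul c).congr (fun _ => ?_) ?_
  · ring
  · ring

theorem has_sum {ι : Type*} (s : Finset ι) {φ : ι → HeightOneSpectrum (𝓞 K) → ℝ} {m : ι → ℝ}
    (h : ∀ i ∈ s, Has (φ i) (m i)) : Has (fun v => ∑ i ∈ s, φ i v) (∑ i ∈ s, m i) := by
  classical
  induction s using Finset.induction_on with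
  | empty => simpa using has_zero (K := K)
  | insert a s ha ih =>
    refine ((h a (Finset.mem_insert_self _ _)).add
      (ih fun i hi => h i (Finset.mem_insert_of_mem hi))).congr (fun v => ?_) ?_
    · rw [Finset.sum_insert ha]
    · rw [Finset.sum_insert ha]

theorem has_unique {φ : HeightOneSpectrum (𝓞 K) → ℝ} {m m' : ℝ} (h : Has φ m) (h' : Has φ m') :
    m = m' := tendsto_nhds_unique h.2 h'.2

theorem has_nonneg {φ : HeightOneSpectrum (𝓞 K) → ℝ} {m : ℝ} (h : Has φ m) (h0 : ∀ v, 0 ≤ φ v) :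
    0 ≤ m := by
  refine ge_of_tendsto h.2 ?_
  filter_upwards [lam_tendsto.eventually_gt_atTop 0] with ε hε
  exact div_nonneg (EP_nonneg h0) hε.le

theorem EP_one_pos : ∀ᶠ ε : ℝ in 𝓝[>] 0, (EP (nm K) ε fun _ => (1 : ℝ)) / lam ε ≤ 2 := by
  exact (EP_one K).eventually_le_const (by norm_num : (1 : ℝ) < 2)

/-- the difference of the means of two near functions -/
theorem EP_near {φ ψ : HeightOneSpectrum (𝓞 K) → ℝ} {B' η : ℝ}
    (hψ : ∀ v, |ψ v| ≤ B') (hn : ∀ v, |φ v - ψ v| ≤ η) {ε : ℝ} (hε : 0 < ε) (hl : 0 < lam ε) :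
    |(EP (nm K) ε φ) / lam ε - (EP (nm K) ε ψ) / lam ε| ≤
      η * ((EP (nm K) ε fun _ => (1 : ℝ)) / lam ε) := by
  have h1 : EP (nm K) ε φ - EP (nm K) ε ψ = EP (nm K) ε fun v => φ v - ψ v := by
    have h2 := EP_add (N := nm K) normSys hε (φ := fun v => φ v - ψ v) (ψ := ψ) hn hψ
    simp only [sub_add_cancel] at h2
    linarith
  rw [← sub_div, abs_div, abs_of_pos hl, h1, mul_div_assoc']
  refine div_le_div_of_nonneg_right ?_ hl.le
  rw [abs_le]
  constructor
  · have h3 := EP_le (N := nm K) normSys hε (φ := fun v => -(φ v - ψ v)) (b := η)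
      (fun v => by rw [abs_neg]; exact hn v) (fun v => (neg_le_abs _).trans (hn v))
    have h4 : (EP (nm K) ε fun v => -(φ v - ψ v)) = -(EP (nm K) ε fun v => φ v - ψ v) := by
      have := EP_const_mul (N := nm K) (ε := ε) (-1) (fun v => φ v - ψ v)
      simp only [neg_one_mul] at this
      exact this
    rw [h4] at h3
    linarith
  · exact EP_le (N := nm K) normSys hε (φ := fun v => φ v - ψ v) (b := η) hn
      (fun v => (le_abs_self _).trans (hn v))

/-- approximation -/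
theorem has_of_approx {φ : HeightOneSpectrum (𝓞 K) → ℝ} {m B : ℝ} (hB : ∀ v, |φ v| ≤ B)
    (h : ∀ η : ℝ, 0 < η → ∃ (ψ : HeightOneSpectrum (𝓞 K) → ℝ) (m' : ℝ), Has ψ m' ∧
      (∀ v, |φ v - ψ v| ≤ η) ∧ |m' - m| ≤ η) : Has φ m := by
  refine ⟨⟨B, hB⟩, ?_⟩
  rw [Metric.tendsto_nhds]
  intro η hη
  obtain ⟨ψ, m', ⟨⟨B', hB'⟩, h1⟩, h2, h3⟩ := h (η / 5) (by positivity)
  filter_upwards [(Metric.tendsto_nhds.1 h1) (η / 5) (by positivity), EP_one_pos (K := K),
    lam_tendsto.eventually_gt_atTop 0, self_mem_nhdsWithin] with ε g1 g2 g3 g4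
  rw [Real.dist_eq] at g1 ⊢
  have g5 := EP_near hB' h2 g4 g3
  have g6 : η / 5 * ((EP (nm K) ε fun _ => (1 : ℝ)) / lam ε) ≤ η / 5 * 2 :=
    mul_le_mul_of_nonneg_left g2 (by positivity)
  have g7 := abs_le.1 (g5.trans g6)
  have g8 := abs_lt.1 g1
  have g9 := abs_le.1 h3
  rw [abs_lt]
  constructor <;> linarith [g7.1, g7.2, g8.1, g8.2, g9.1, g9.2]

/-- domination -/
theorem has_dom {φ ψ : HeightOneSpectrum (𝓞 K) → ℝ} (h : Has φ 0) (h0 : ∀ v, 0 ≤ ψ v) {C : ℝ}
    (hC : ∀ v, ψ v ≤ C * φ v) : Has ψ 0 := by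
  obtain ⟨⟨B, hB⟩, h1⟩ := h
  have hb : ∀ v, |ψ v| ≤ |C| * B := by
    intro v
    rw [abs_of_nonneg (h0 v)]
    refine (hC v).trans ((le_abs_self _).trans ?_)
    rw [abs_mul]
    exact mul_le_mul_of_nonneg_left (hB v) (abs_nonneg _)
  refine ⟨⟨|C| * B, hb⟩, ?_⟩
  have h2 : Tendsto (fun ε : ℝ => C * ((EP (nm K) ε φ) / lam ε)) (𝓝[>] 0) (𝓝 0) := by
    simpa using h1.const_mul C
  refine squeeze_zero' ?_ ?_ h2
  · filter_upwards [lam_tendsto.eventually_gt_atTop 0] with ε hε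
    exact div_nonneg (EP_nonneg h0) hε.le
  · filter_upwards [lam_tendsto.eventually_gt_atTop 0, self_mem_nhdsWithin] with ε hε hε0
    rw [mul_div_assoc']
    refine div_le_div_of_nonneg_right ?_ hε.le
    have h3 := EP_le (N := nm K) normSys hε0 (φ := fun v => ψ v + (-C) * φ v)
      (B := |C| * B + |C| * B) (b := 0)
      (fun v => by
        refine (abs_add_le _ _).trans (add_le_add (hb v) ?_)
        rw [abs_mul, abs_neg]
        exact mul_le_mul_of_nonneg_left (hB v) (abs_nonneg _))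
      (fun v => by linarith [hC v])
    rw [EP_add (N := nm K) normSys hε0 (φ := ψ) (ψ := fun v => (-C) * φ v) (B' := |C| * B) hb
      (fun v => by
        rw [abs_mul, abs_neg]
        exact mul_le_mul_of_nonneg_left (hB v) (abs_nonneg _)), EP_const_mul] at h3
    linarith

/-- changes at finitely many primes -/
theorem has_cofinite {φ ψ : HeightOneSpectrum (𝓞 K) → ℝ} {m : ℝ} (h : Has φ m)
    (he : ∀ᶠ v in cofinite, φ v = ψ v) : Has ψ m := by
  classical
  obtain ⟨⟨B, hB⟩, h1⟩ := h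
  have hf : {v | ¬ φ v = ψ v}.Finite := he
  set S := hf.toFinset with hS
  have hout : ∀ v, v ∉ S → φ v = ψ v := by
    intro v hv
    by_contra hcon
    exact hv (hf.mem_toFinset.2 hcon)
  have hBn : 0 ≤ B ∨ IsEmpty (HeightOneSpectrum (𝓞 K)) := by
    rcases isEmpty_or_nonempty (HeightOneSpectrum (𝓞 K)) with h | ⟨⟨v⟩⟩
    · exact Or.inr h
    · exact Or.inl ((abs_nonneg _).trans (hB v))
  set D : ℝ := ∑ v ∈ S, |ψ v - φ v| with hD
  have hD0 : 0 ≤ D := Finset.sum_nonneg fun _ _ => abs_nonneg _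
  have hb1 : ∀ v, |ψ v - φ v| ≤ D := by
    intro v
    by_cases hv : v ∈ S
    · exact Finset.single_le_sum (f := fun v => |ψ v - φ v|) (fun _ _ => abs_nonneg _) hv
    · rw [hout v hv, sub_self, abs_zero]
      exact hD0
  have hb2 : ∀ v, |ψ v| ≤ B + D := by
    intro v
    have : ψ v = φ v + (ψ v - φ v) := by ring
    rw [this]
    exact (abs_add_le _ _).trans (add_le_add (hB v) (hb1 v))
  refine ⟨⟨B + D, hb2⟩, ?_⟩
  have hdiff : ∀ ε : ℝ, 0 < ε → |EP (nm K) ε ψ - EP (nm K) ε φ| ≤ D := by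
    intro ε hε
    have h2 : EP (nm K) ε ψ - EP (nm K) ε φ = EP (nm K) ε fun v => ψ v - φ v := by
      have h2 := EP_add (N := nm K) normSys hε (φ := fun v => ψ v - φ v) (ψ := φ) hb1 hB
      simp only [sub_add_cancel] at h2
      linarith
    rw [h2]
    unfold EP
    rw [tsum_eq_sum (s := S) fun v hv => by simp only [hout v hv, sub_self, zero_mul]]
    refine (Finset.abs_sum_le_sum_abs _ _).trans (Finset.sum_le_sum fun v _ => ?_)
    rw [abs_mul, abs_of_nonneg (wP_nonneg ε v)]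
    have h3 : ((nm K v : ℕ) : ℝ) ^ (-(1 + ε)) ≤ 1 :=
      Real.rpow_le_one_of_one_le_of_nonpos (by exact_mod_cast nm_pos v) (by linarith)
    calc |ψ v - φ v| * ((nm K v : ℕ) : ℝ) ^ (-(1 + ε)) ≤ |ψ v - φ v| * 1 :=
        mul_le_mul_of_nonneg_left h3 (abs_nonneg _)
      _ = |ψ v - φ v| := mul_one _
  have h3 : Tendsto (fun ε : ℝ => (EP (nm K) ε ψ) / lam ε - (EP (nm K) ε φ) / lam ε)
      (𝓝[>] 0) (𝓝 0) := by
    have h4 : Tendsto (fun ε : ℝ => D / lam ε) (𝓝[>] 0) (𝓝 0) :=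
      tendsto_const_nhds.div_atTop lam_tendsto
    refine squeeze_zero_norm' ?_ h4
    filter_upwards [lam_tendsto.eventually_gt_atTop 0, self_mem_nhdsWithin] with ε hε hε0
    rw [Real.norm_eq_abs, ← sub_div, abs_div, abs_of_pos hε]
    exact div_le_div_of_nonneg_right (hdiff ε hε0) hε.le
  have h5 := h3.add h1
  simpa using h5

/-- the definition with the logarithm -/
theorem hasMean_of_has {φ : HeightOneSpectrum (𝓞 K) → ℝ} {m : ℝ} (h : Has φ m) : HasMean φ m := by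
  obtain ⟨⟨B, hB⟩, h1⟩ := h
  have hb : ∀ᶠ ε : ℝ in 𝓝[>] 0, |EP (nm K) ε φ| ≤ (2 * |B|) * lam ε := by
    filter_upwards [EP_one_pos (K := K), lam_tendsto.eventually_gt_atTop 0,
      self_mem_nhdsWithin] with ε g1 g2 g3
    rw [div_le_iff₀ g2] at g1
    have hB' : ∀ v, |φ v| ≤ |B| := fun v => (hB v).trans (le_abs_self B)
    have h2 := EP_le (N := nm K) normSys g3 (φ := φ) (b := |B|) hB
      (fun v => (le_abs_self _).trans (hB' v))
    have h3 := EP_le (N := nm K) normSys g3 (φ := fun v => -φ v) (b := |B|)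
      (fun v => by rw [abs_neg]; exact hB v) (fun v => (neg_le_abs _).trans (hB' v))
    have h4 : (EP (nm K) ε fun v => -φ v) = -(EP (nm K) ε φ) := by
      have := EP_const_mul (N := nm K) (ε := ε) (-1) φ
      simp only [neg_one_mul] at this
      exact this
    rw [h4] at h3
    have h5 : |B| * (EP (nm K) ε fun _ => (1 : ℝ)) ≤ |B| * (2 * lam ε) :=
      mul_le_mul_of_nonneg_left g1 (abs_nonneg _)
    rw [abs_le]
    constructor <;> nlinarith
  have h2 := size_compare (y := fun ε => EP (nm K) ε φ) (ℓ := fun ε => EP (nm K) ε φ) (C := 0) hb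
    (Filter.Eventually.of_forall fun ε => by rw [sub_self, abs_zero])
  have h3 := h1.sub h2
  rw [sub_zero] at h3
  refine h3.congr fun ε => ?_
  rw [sub_sub_cancel]
  rfl

/-- the trace of the library -/
theorem isTrace_eq {l : ℕ} {X : Set (MvPolynomial (Fin l) (𝓞 K))} {d i N : ℕ} (hi : i ≤ 2 * d)
    {t : HeightOneSpectrum (𝓞 K) → ℝ} (ht : IsTrace X d i N t) :
    ∀ᶠ v in cofinite, tF X d i N K v = t v := by
  refine ht.mono fun v hv => ?_
  obtain ⟨α, h1, h2⟩ := hv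
  have h1' : Eig X d i v α := h1
  have h3 : Eig X d i v (alp X d i N K v) := pick_spec ⟨α, h1'⟩
  have h4 := congrArg Multiset.sum (h1'.unique' hi h3)
  change ∑ j, α j = ∑ j, alp X d i N K v j at h4
  have h5 := tr_eq (w := (i : ℝ) / 2) (α := alp X d i N K) (v := v) (fun j => h3.norm j) (h3.im hi)
  rw [← h4, h2] at h5
  have h6 : (0 : ℝ) < Ideal.absNorm v.asIdeal := by exact_mod_cast nm_pos v
  have h7 : ((tr ((i : ℝ) / 2) (alp X d i N K) v : ℝ) : ℂ) = ((t v : ℝ) : ℂ) := by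
    rw [h5]
    have e1 : ((nm K v : ℕ) : ℂ) ^ (-(((i : ℝ) / 2 : ℝ) : ℂ)) =
        (((Ideal.absNorm v.asIdeal : ℝ) ^ (-((i : ℝ) / 2)) : ℝ) : ℂ) := by
      rw [Complex.ofReal_cpow h6.le]
      push_cast
      rfl
    rw [e1, ← Complex.ofReal_mul, mul_assoc, ← Real.rpow_add h6, add_neg_cancel, Real.rpow_zero,
      mul_one]
  exact_mod_cast h7

end Pool.Agent.X303.SC
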