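import Pool.Agent.X303.SC.Equi

/-! The tensor powers of `H^i(X)` of rank two. -/

set_option autoImplicit false

namespace Pool.Agent.X303.SC

open Complex Filter Topology NumberField IsDedekindDomain
  Pool.Agent.W401.Cheb Pool.Agent.W540.BE Pool.Agent.W353.L1 Polynomial
open Pool.Agent.H341R2 (lam lam_tendsto)
open Pool.Agent.W353.PV (tF)
open Pool.Agent.W353.EF (IsFrobenius LFun)
open Pool.Agent.W353.EH (edgePoint size HasOrder)
open Pool.Agent.Y139.SM (IsPowerSystem one_artin RR_one power_size size_of_order)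

variable {K : Type} [Field K] [NumberField K] {l : ℕ} {X : Set (MvPolynomial (Fin l) (𝓞 K))}
  {d i N : ℕ}

/-- the moments of the traces -/
theorem has_power (hi : i ≤ 2 * d) {r : ℕ} {B : HeightOneSpectrum (𝓞 K) → ℂ[X]}
    (hB : IsPowerSystem X d i N r (1 : Representation ℂ (GK K) (Fin 1 → ℂ)) B) {k : ℤ}
    (hk : HasOrder (r * i) 0 B k ∨ HasSize (r * i) B k) :
    Has (fun v => tF X d i N K v ^ r) (-(k : ℝ)) := by
  choose σ hσ using exists_isFrob (F := K)
  have h1 := power_size hi hσ r _ one_artin B hB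
  have h2 : Tendsto (size (r * i) 0 B) (𝓝[>] 0) (𝓝 (-(k : ℝ))) := by
    rcases hk with h | h
    · exact size_of_order h1.1 h
    · exact h
  refine ⟨⟨(N : ℝ) ^ r, fun v => ?_⟩, ?_⟩
  · rw [abs_pow]
    exact pow_le_pow_left₀ (abs_nonneg _) (abs_tr_le _ _ _) r
  · have h3 := h1.2.add h2
    rw [zero_add] at h3
    refine h3.congr fun ε => ?_
    rw [sub_add_cancel]
    have e : (fun v => tF X d i N K v ^ r *
        RR (1 : Representation ℂ (GK K) (Fin 1 → ℂ)) 0 σ v) = fun v => tF X d i N K v ^ r := by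
      funext v
      rw [RR_one, mul_one]
    rw [e]

open Classical in
/-- **The alternative in rank two.** -/
theorem rankTwo (hi : i ≤ 2 * d) {t : HeightOneSpectrum (𝓞 K) → ℝ} (ht : IsTrace X d i 2 t)
    {k : ℕ → ℤ} (hk : ∀ r, 1 ≤ r → ∃ B : HeightOneSpectrum (𝓞 K) → ℂ[X],
      IsPowerSystem X d i 2 r (1 : Representation ℂ (GK K) (Fin 1 → ℂ)) B ∧
        (HasOrder (r * i) 0 B (k r) ∨ HasSize (r * i) B (k r))) (h2 : -1 ≤ k 2) :
    ((∀ m, k (2 * m + 1) = 0) ∧ (∀ m, 1 ≤ m → k (2 * m) = -(catalan m : ℤ)) ∧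
      ∀ f : ℝ → ℝ, Continuous f → HasMean (fun v => f (t v)) (satoTate f)) ∨
    ((∀ m, k (2 * m + 1) = 0) ∧ (∀ m, 1 ≤ m → 2 * k (2 * m) = -(m.centralBinom : ℤ)) ∧
      ∀ f : ℝ → ℝ, Continuous f → HasMean (fun v => f (t v)) (normaliserLaw f)) ∨
    ∃ n : ℕ, 1 ≤ n ∧ ∀ δ : ℝ, 0 < δ →
      DensityZero {v | ∀ j : ℤ, δ ≤ |t v - 2 * Real.cos (2 * Real.pi * j / n)|} := by
  set M : ℕ → ℤ := fun r => if r = 0 then 1 else -k r with hM
  have hTr : Tr (tF X d i 2 K) M := by
    refine ⟨fun v => ?_, fun r => ?_⟩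
    · have := abs_tr_le (F := K) ((i : ℝ) / 2) (Pool.Agent.W353.PV.alp X d i 2 K) v
      exact_mod_cast this
    · by_cases hr : r = 0
      · subst hr
        refine has_one.congr (fun v => by rw [pow_zero]) ?_
        rw [hM]
        norm_num
      · obtain ⟨B, hB, hkB⟩ := hk r (by omega)
        refine (has_power hi hB hkB).congr (fun v => rfl) ?_
        rw [hM]
        simp only [if_neg hr]
        push_cast
        rfl
  have hM2 : M 2 ≤ 1 := by
    rw [hM]
    simp only [if_neg (by norm_num : (2 : ℕ) ≠ 0)]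
    omega
  have hte := isTrace_eq hi ht
  have hMk : ∀ r, 1 ≤ r → k r = -M r := by
    intro r hr
    rw [hM]
    simp only [if_neg (show r ≠ 0 by omega)]
    ring
  have hmean : ∀ {f : ℝ → ℝ} {m : ℝ}, Has (fun v => f (tF X d i 2 K v)) m →
      HasMean (fun v => f (t v)) m := fun {f m} h =>
    hasMean_of_has (has_cofinite h (hte.mono fun v hv => by rw [hv]))
  rcases hTr.trichotomy hM2 with ⟨n, hn1, hn⟩ | ⟨h2', ho, hAD⟩
  · right; right
    refine ⟨n, hn1, fun δ hδ => ?_⟩
    refine hasMean_of_has (has_cofinite (hTr.near hn1 hn hδ) (hte.mono fun v hv => ?_))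
    simp only [Set.mem_ofPred_eq, hv]
  · have hodd : ∀ m, k (2 * m + 1) = 0 := fun m => by
      rw [hMk _ (by omega), odd_moment ho, neg_zero]
    rcases hAD with hA | hD
    · left
      refine ⟨hodd, fun m hm => ?_, fun f hf => hmean (hTr.lawA h2' ho hA hf)⟩
      rw [hMk _ (by omega), even_A (cM_zero M hTr.zero) h2' hA]
    · right; left
      refine ⟨hodd, fun m hm => ?_, fun f hf => hmean (hTr.lawD ho hD hf)⟩
      have := even_D (cM_zero M hTr.zero) hD hm
      rw [hMk _ (by omega)]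
      linarith

end Pool.Agent.X303.SC
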