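import Pool.Agent.X303.SC.LawDefs
import Pool.Agent.Y139.SM.Defs

/-!
# The transcendental part of rank three: definitions

`X` is a smooth projective variety over a number field `K`, of dimension `d`, `0 ≤ m ≤ d`, `N` the `2m`-th
Betti number, `V` a part of `H^{2m}(X)(m)` and `T` the complement of `V(-m)` in `H^{2m}(X)`.
-/

set_option autoImplicit false

namespace Pool.Agent.X303.SC

open NumberField IsDedekindDomain Filter Topology Polynomial
open Pool.Agent.W353.AT (IsFrobeniusElement)
open Pool.Agent.Y139.SM (IsTranscendental)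

section
variable {K : Type} [Field K] [NumberField K] {l : ℕ} (X : Set (MvPolynomial (Fin l) (𝓞 K)))
  (d m N : ℕ) {V : Type} [AddCommGroup V] [Module ℚ V] [FiniteDimensional ℚ V]
  (ρ : Representation ℚ Gal(AlgebraicClosure K/K) V)
  (χ : Representation ℂ Gal(AlgebraicClosure K/K) (Fin 1 → ℂ))

/-- The one-dimensional representation `χ` is the determinant of `T(m)`: for almost all primes `v` the
product of the eigenvalues of the geometric Frobenius `σ⁻¹` on `T` is `χ(σ⁻¹) q_v^(m dim T)`. -/
def IsDeterminant : Prop :=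
  ∀ᶠ v in cofinite, ∀ σ, IsFrobeniusElement v σ → ∀ β, IsTranscendental X d m N ρ v β →
    ∏ j, β j = χ.character σ⁻¹ *
      (Ideal.absNorm v.asIdeal : ℂ) ^ (m * (N - Module.finrank ℚ V))

/-- For almost all primes `v`, `w v` is the normalised trace of the geometric Frobenius `σ⁻¹` on
`T ⊗ χ`: `w v · q_v^m` is the sum of the eigenvalues on `T`, multiplied by `χ(σ⁻¹)`. -/
def IsTwistedTrace (w : HeightOneSpectrum (𝓞 K) → ℝ) : Prop :=
  ∀ᶠ v in cofinite, ∀ σ, IsFrobeniusElement v σ → ∃ β, IsTranscendental X d m N ρ v β ∧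
    χ.character σ⁻¹ * ∑ j, β j = (w v : ℂ) * (Ideal.absNorm v.asIdeal : ℂ) ^ m

end

/-- The mean value of `f` for the law of the traces `1 + 2 cos θ` of the elements of `SO(3)`: the
integral of `f(1 + 2 cos θ)` over `[0, π]` for the measure `(1/π) (1 - cos θ) dθ`. -/
noncomputable def rotationLaw (f : ℝ → ℝ) : ℝ :=
  1 / Real.pi * ∫ θ in (0 : ℝ)..Real.pi, f (1 + 2 * Real.cos θ) * (1 - Real.cos θ)

/-- The mean value of `f` for the law of the traces of the elements of the subgroup `O(2)` of `SO(3)`:
half of the value at `-1` and half of the mean value of `f(1 + 2 cos θ)` over `[0, π]`. -/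
noncomputable def axisLaw (f : ℝ → ℝ) : ℝ :=
  f (-1) / 2 + 1 / (2 * Real.pi) * ∫ θ in (0 : ℝ)..Real.pi, f (1 + 2 * Real.cos θ)

end Pool.Agent.X303.SC
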