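import Pool.Agent.X303.SC.Equi
import Pool.Agent.X303.SC.RotDefs
import Pool.Agent.Y139.SM.Bessel

/-! The tensor powers of the transcendental part of rank three. -/

set_option autoImplicit false

namespace Pool.Agent.X303.SC

open Complex Filter Topology ComplexConjugate NumberField IsDedekindDomain
  Pool.Agent.W401.Cheb Pool.Agent.W540.BE Pool.Agent.W353.L1 Polynomial
open Pool.Agent.H341R2 (lam lam_tendsto)
open Pool.Agent.W353.PV (tF)
open Pool.Agent.W353.TD (ch IsPart)
open Pool.Agent.W353.EF (IsFrobenius LFun)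
open Pool.Agent.W353.EH (edgePoint size HasOrder)
open Pool.Agent.W353.AT (tC abs_tC IsArtin)
open Pool.Agent.Y139.SM (IsTranscendental IsTensorSystem tr_facts tensor_size good_of_part
  size_of_order one_artin RR_zero RR_one)

variable {K : Type} [Field K] [NumberField K]

/-! ### The laws on `[-2, 2]` -/

/-- the law of `2 cos θ` for `SO(3)` -/
noncomputable def law3 (f : ℝ → ℝ) : ℝ :=
  1 / Real.pi * ∫ θ in (0 : ℝ)..Real.pi, f (2 * Real.cos θ) * (1 - Real.cos θ)

/-- the law of `2 cos θ` for `O(2)` -/
noncomputable def law2 (f : ℝ → ℝ) : ℝ :=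
  f (-2) / 2 + 1 / (2 * Real.pi) * ∫ θ in (0 : ℝ)..Real.pi, f (2 * Real.cos θ)

theorem law3_mean : MeanFun law3 where
  add f g hf hg := by
    unfold law3
    rw [← mul_add, ← intervalIntegral.integral_add
      (Continuous.intervalIntegrable (by fun_prop) _ _)
      (Continuous.intervalIntegrable (by fun_prop) _ _)]
    congr 2
    funext θ
    ring
  mul c f hf := by
    unfold law3
    have : (∫ θ in (0 : ℝ)..Real.pi, c * f (2 * Real.cos θ) * (1 - Real.cos θ)) =
        c * ∫ θ in (0 : ℝ)..Real.pi, f (2 * Real.cos θ) * (1 - Real.cos θ) := by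
      rw [← intervalIntegral.integral_const_mul]
      congr 1
      funext θ
      ring
    rw [this]
    ring
  near f g η hf hg hη h := by
    unfold law3
    rw [← mul_sub, ← intervalIntegral.integral_sub
      (Continuous.intervalIntegrable (by fun_prop) _ _)
      (Continuous.intervalIntegrable (by fun_prop) _ _)]
    have hpi := Real.pi_pos
    have hI : ∫ θ in (0 : ℝ)..Real.pi, η * (1 - Real.cos θ) = η * Real.pi := by
      rw [intervalIntegral.integral_const_mul, intervalIntegral.integral_sub
        (Continuous.intervalIntegrable (by fun_prop) _ _)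
        (Continuous.intervalIntegrable (by fun_prop) _ _), integral_cos]
      simp
    have h1 : ‖∫ θ in (0 : ℝ)..Real.pi, (f (2 * Real.cos θ) * (1 - Real.cos θ) -
        g (2 * Real.cos θ) * (1 - Real.cos θ))‖ ≤
        ∫ θ in (0 : ℝ)..Real.pi, η * (1 - Real.cos θ) := by
      refine intervalIntegral.norm_integral_le_of_norm_le hpi.le
        (MeasureTheory.ae_of_all _ fun θ _ => ?_)
        (Continuous.intervalIntegrable (by fun_prop) _ _)
      have e0 : 0 ≤ 1 - Real.cos θ := by linarith [Real.cos_le_one θ]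
      rw [← sub_mul, norm_mul, Real.norm_eq_abs, Real.norm_eq_abs, abs_of_nonneg e0]
      exact mul_le_mul_of_nonneg_right (h _ cos_two) e0
    rw [hI, Real.norm_eq_abs] at h1
    rw [abs_mul, abs_of_pos (by positivity : 0 < 1 / Real.pi)]
    calc 1 / Real.pi * |∫ θ in (0 : ℝ)..Real.pi, (f (2 * Real.cos θ) * (1 - Real.cos θ) -
        g (2 * Real.cos θ) * (1 - Real.cos θ))| ≤ 1 / Real.pi * (η * Real.pi) :=
          mul_le_mul_of_nonneg_left h1 (by positivity)
      _ = η := by field_simp

theorem law3_C (k : ℕ) : law3 (fun x => (Chebyshev.C ℝ k).eval x) =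
    if k = 0 then 2 else if k = 1 then -1 else 0 := by
  unfold law3
  have e : (∫ θ in (0 : ℝ)..Real.pi, (Chebyshev.C ℝ k).eval (2 * Real.cos θ) * (1 - Real.cos θ)) =
      2 * (∫ θ in (0 : ℝ)..Real.pi, Real.cos ((k : ℤ) * θ)) -
        (∫ θ in (0 : ℝ)..Real.pi, Real.cos (((k : ℤ) + 1 : ℤ) * θ)) -
        (∫ θ in (0 : ℝ)..Real.pi, Real.cos (((k : ℤ) - 1 : ℤ) * θ)) := by
    rw [← intervalIntegral.integral_const_mul,
      ← intervalIntegral.integral_sub (Continuous.intervalIntegrable (by fun_prop) _ _)
        (Continuous.intervalIntegrable (by fun_prop) _ _),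
      ← intervalIntegral.integral_sub (Continuous.intervalIntegrable (by fun_prop) _ _)
        (Continuous.intervalIntegrable (by fun_prop) _ _)]
    congr 1
    funext θ
    rw [Chebyshev.C_two_mul_real_cos]
    have e1 : Real.cos ((((k : ℤ) + 1 : ℤ) : ℝ) * θ) = Real.cos ((k : ℤ) * θ) * Real.cos θ -
        Real.sin ((k : ℤ) * θ) * Real.sin θ := by
      rw [← Real.cos_add]
      congr 1
      push_cast
      ring
    have e2 : Real.cos ((((k : ℤ) - 1 : ℤ) : ℝ) * θ) = Real.cos ((k : ℤ) * θ) * Real.cos θ +
        Real.sin ((k : ℤ) * θ) * Real.sin θ := by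
      rw [← Real.cos_sub]
      congr 1
      push_cast
      ring
    rw [e1, e2]
    ring
  rw [e, int_cos, int_cos, int_cos]
  have hpi := Real.pi_pos
  by_cases h0 : k = 0
  · subst h0
    simp
    field_simp
  · by_cases h2 : k = 1
    · subst h2
      simp
    · rw [if_neg (by omega), if_neg (by omega), if_neg (by omega), if_neg h0, if_neg h2]
      ring

theorem law2_mean : MeanFun law2 where
  add f g hf hg := by
    unfold law2
    rw [intervalIntegral.integral_add
      (Continuous.intervalIntegrable (by fun_prop) _ _)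
      (Continuous.intervalIntegrable (by fun_prop) _ _)]
    ring
  mul c f hf := by
    unfold law2
    rw [intervalIntegral.integral_const_mul]
    ring
  near f g η hf hg hη h := by
    unfold law2
    have hpi := Real.pi_pos
    have hI : ∫ θ in (0 : ℝ)..Real.pi, η = η * Real.pi := by
      rw [intervalIntegral.integral_const, smul_eq_mul]
      ring
    have h1 : ‖∫ θ in (0 : ℝ)..Real.pi, (f (2 * Real.cos θ) - g (2 * Real.cos θ))‖ ≤
        ∫ θ in (0 : ℝ)..Real.pi, η := by
      refine intervalIntegral.norm_integral_le_of_norm_le hpi.le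
        (MeasureTheory.ae_of_all _ fun θ _ => ?_)
        (Continuous.intervalIntegrable (by fun_prop) _ _)
      rw [Real.norm_eq_abs]
      exact h _ cos_two
    rw [hI, Real.norm_eq_abs] at h1
    have h0 : |f (-2) - g (-2)| ≤ η := h (-2) ⟨by norm_num, by norm_num⟩
    have e : f (-2) / 2 + 1 / (2 * Real.pi) * (∫ θ in (0 : ℝ)..Real.pi, f (2 * Real.cos θ)) -
        (g (-2) / 2 + 1 / (2 * Real.pi) * ∫ θ in (0 : ℝ)..Real.pi, g (2 * Real.cos θ)) =
        (f (-2) - g (-2)) / 2 + 1 / (2 * Real.pi) *
          ∫ θ in (0 : ℝ)..Real.pi, (f (2 * Real.cos θ) - g (2 * Real.cos θ)) := by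
      rw [intervalIntegral.integral_sub (Continuous.intervalIntegrable (by fun_prop) _ _)
        (Continuous.intervalIntegrable (by fun_prop) _ _)]
      ring
    rw [e]
    refine (abs_add_le _ _).trans ?_
    rw [abs_div, abs_two, abs_mul, abs_of_pos (by positivity : 0 < 1 / (2 * Real.pi))]
    have h2 : 1 / (2 * Real.pi) * |∫ θ in (0 : ℝ)..Real.pi,
        (f (2 * Real.cos θ) - g (2 * Real.cos θ))| ≤ 1 / (2 * Real.pi) * (η * Real.pi) :=
      mul_le_mul_of_nonneg_left h1 (by positivity)
    have h3 : 1 / (2 * Real.pi) * (η * Real.pi) = η / 2 := by field_simp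
    linarith

theorem law2_C (k : ℕ) : law2 (fun x => (Chebyshev.C ℝ k).eval x) =
    (-1) ^ k + if k = 0 then 1 else 0 := by
  unfold law2
  have e0 : (Chebyshev.C ℝ k).eval (-2) = 2 * (-1) ^ k := by
    have := Chebyshev.C_two_mul_real_cos Real.pi k
    rw [Real.cos_pi] at this
    have e1 : (2 : ℝ) * -1 = -2 := by norm_num
    rw [e1] at this
    rw [this, ← Real.cos_nat_mul_pi]
    push_cast
    rfl
  have e : (∫ θ in (0 : ℝ)..Real.pi, (Chebyshev.C ℝ k).eval (2 * Real.cos θ)) =
      2 * ∫ θ in (0 : ℝ)..Real.pi, Real.cos ((k : ℤ) * θ) := by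
    rw [← intervalIntegral.integral_const_mul]
    congr 1
    funext θ
    rw [Chebyshev.C_two_mul_real_cos]
  beta_reduce
  rw [e0, e, int_cos]
  have hpi := Real.pi_pos
  by_cases h0 : k = 0
  · subst h0
    simp
    field_simp
  · rw [if_neg (by omega), if_neg h0]
    ring

section
variable {t : HeightOneSpectrum (𝓞 K) → ℝ} {M : ℕ → ℤ}

/-- the trichotomy with `M 1 ≤ -1` -/
theorem Tr.three (h : Tr t M) (h1 : M 1 ≤ -1) :
    (∃ n, 1 ≤ n ∧ cM M n = 2) ∨
      (∀ f : ℝ → ℝ, Continuous f → Has (fun v => f (t v)) (law3 f)) ∨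
      ∀ f : ℝ → ℝ, Continuous f → Has (fun v => f (t v)) (law2 f) := by
  have h0 := cM_zero M h.zero
  by_cases hp : Pos (cM M)
  · right
    have h3 : cM M 1 = -1 := by
      have h4 := cM_one M
      rcases bound hp h0 1 (by norm_num) with h5 | h5 | h5 <;> omega
    rcases alternative hp h0 h3 with hA | hD
    · left
      intro f hf
      refine h.equi law3_mean (fun k => ?_) hf
      rw [law3_C]
      by_cases h00 : k = 0
      · subst h00
        rw [if_pos rfl, h0]
        norm_num
      · by_cases h11 : k = 1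
        · subst h11
          rw [if_neg (by norm_num), if_pos rfl, h3]
          norm_num
        · rw [if_neg h00, if_neg h11, hA k (by omega)]
          norm_num
    · right
      intro f hf
      refine h.equi law2_mean (fun k => ?_) hf
      rw [law2_C]
      by_cases h00 : k = 0
      · subst h00
        rw [if_pos rfl, h0]
        norm_num
      · rw [if_neg h00, hD k (by omega)]
        push_cast
        ring
  · exact Or.inl (degenerate h.psd h0 hp)

/-- the moments of `t - 1` -/
noncomputable def shiftM (M : ℕ → ℤ) (r : ℕ) : ℤ :=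
  ∑ j ∈ Finset.range (r + 1), M j * (-1) ^ (r - j) * (r.choose j : ℤ)

theorem has_shift {w : HeightOneSpectrum (𝓞 K) → ℝ} (h : ∀ r, Has (fun v => w v ^ r) (M r))
    (r : ℕ) : Has (fun v => (w v - 1) ^ r) (shiftM M r) := by
  have h1 := has_sum (K := K) (Finset.range (r + 1))
    (φ := fun j v => ((-1) ^ (r - j) * (r.choose j : ℝ)) * w v ^ j)
    (m := fun j => ((-1) ^ (r - j) * (r.choose j : ℝ)) * (M j : ℝ))
    fun j _ => (h j).const_mul _
  refine h1.congr (fun v => ?_) ?_
  · rw [sub_eq_add_neg, add_pow]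
    refine Finset.sum_congr rfl fun j _ => ?_
    ring
  · unfold shiftM
    push_cast
    refine Finset.sum_congr rfl fun j _ => ?_
    ring

end

/-! ### The eigenvalues -/

/-- three complex numbers of absolute value one with real sum and product `δ = ±1` -/
theorem three_real {a b c : ℂ} (ha : ‖a‖ = 1) (hb : ‖b‖ = 1) (hc : ‖c‖ = 1)
    (him : (a + b + c).im = 0) {δ : ℝ} (hδ : δ = 1 ∨ δ = -1) (hp : a * b * c = δ) :
    |δ * (a + b + c).re - 1| ≤ 2 := by
  have ca : a * conj a = 1 := by rw [Complex.mul_conj, Complex.normSq_eq_norm_sq, ha]; norm_num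
  have cb : b * conj b = 1 := by rw [Complex.mul_conj, Complex.normSq_eq_norm_sq, hb]; norm_num
  have cc : c * conj c = 1 := by rw [Complex.mul_conj, Complex.normSq_eq_norm_sq, hc]; norm_num
  have hδ2 : (δ : ℂ) * δ = 1 := by
    rcases hδ with h | h <;> rw [h] <;> norm_num
  have hreal : conj a + conj b + conj c = a + b + c := by
    rw [← map_add, ← map_add]
    exact Complex.conj_eq_iff_im.2 him
  have e1 : a * b = δ * conj c := by
    calc a * b = a * b * (c * conj c) := by rw [cc, mul_one]
      _ = (a * b * c) * conj c := by ring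
      _ = δ * conj c := by rw [hp]
  have e2 : a * c = δ * conj b := by
    calc a * c = a * c * (b * conj b) := by rw [cb, mul_one]
      _ = (a * b * c) * conj b := by ring
      _ = δ * conj b := by rw [hp]
  have e3 : b * c = δ * conj a := by
    calc b * c = b * c * (a * conj a) := by rw [ca, mul_one]
      _ = (a * b * c) * conj a := by ring
      _ = δ * conj a := by rw [hp]
  have hroot : ((δ : ℂ) - a) * (δ - b) * (δ - c) = 0 := by
    have : ((δ : ℂ) - a) * (δ - b) * (δ - c) =
        (δ * δ) * δ - (δ * δ) * (a + b + c) + δ * (a * b + a * c + b * c) - a * b * c := by ring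
    rw [this, hp, e1, e2, e3, hδ2]
    have : (1 : ℂ) * δ - 1 * (a + b + c) + δ * (δ * conj c + δ * conj b + δ * conj a) - δ =
        (δ * δ) * (conj a + conj b + conj c) - (a + b + c) := by ring
    rw [this, hδ2, hreal]
    ring
  have key : ∀ x y : ℂ, ‖x‖ = 1 → ‖y‖ = 1 → a + b + c = δ + x + y →
      |δ * (a + b + c).re - 1| ≤ 2 := by
    intro x y hx hy h
    have h1 : δ * (a + b + c).re - 1 = δ * (x + y).re := by
      rw [h, add_assoc, Complex.add_re, Complex.ofReal_re]
      have : δ * δ = 1 := by exact_mod_cast hδ2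
      linear_combination this
    rw [h1, abs_mul]
    have h2 : |δ| = 1 := by rcases hδ with h | h <;> rw [h] <;> norm_num
    rw [h2, one_mul]
    refine (Complex.abs_re_le_norm _).trans ((norm_add_le _ _).trans ?_)
    rw [hx, hy]
    norm_num
  rcases mul_eq_zero.1 hroot with h | h
  · rcases mul_eq_zero.1 h with h | h
    · have h' : (δ : ℂ) = a := sub_eq_zero.1 h
      exact key b c hb hc (by rw [h'])
    · have h' : (δ : ℂ) = b := sub_eq_zero.1 h
      exact key a c ha hc (by rw [h']; ring)
  · have h' : (δ : ℂ) = c := sub_eq_zero.1 h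
    exact key a b ha hb (by rw [h']; ring)

end Pool.Agent.X303.SC
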