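import Pool.Agent.X303.SC.Rank3

/-! The tensor powers of the transcendental part of rank three: the theorem. -/

set_option autoImplicit false

namespace Pool.Agent.X303.SC

open Complex Filter Topology ComplexConjugate NumberField IsDedekindDomain
  Pool.Agent.W401.Cheb Pool.Agent.W540.BE Pool.Agent.W353.L1 Polynomial
open Pool.Agent.H341R2 (lam lam_tendsto)
open Pool.Agent.W353.PV (tF)
open Pool.Agent.W353.TD (ch IsPart)
open Pool.Agent.W353.EF (IsFrobenius LFun)
open Pool.Agent.W353.EH (edgePoint size HasOrder)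
open Pool.Agent.W353.AT (tC abs_tC IsArtin)
open Pool.Agent.Y139.SM (IsTranscendental IsTensorSystem tr_facts tensor_size good_of_part
  size_of_order one_artin RR_zero RR_one)

variable {K : Type} [Field K] [NumberField K] {l : ℕ} {X : Set (MvPolynomial (Fin l) (𝓞 K))}
  {d m N : ℕ} {V : Type} [AddCommGroup V] [Module ℚ V] [FiniteDimensional ℚ V]
  {ρ : Representation ℚ (GK K) V}

/-- the moments -/
theorem has_tensor (hmd : m ≤ d) (hV : IsPart X d m N ρ) {σ : HeightOneSpectrum (𝓞 K) → GK K}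
    (hσ : ∀ v, IsFrob v (σ v)) {r n : ℕ} {χ : Representation ℂ (GK K) (Fin n → ℂ)}
    (hχ : IsArtin χ) (hb : ∀ v, |(χ.character (σ v)⁻¹).re| ≤ 1)
    {B : HeightOneSpectrum (𝓞 K) → ℂ[X]} (hB : IsTensorSystem X d m N ρ r χ B) {k : ℤ}
    (hk : HasOrder (2 * (r * m)) 0 B k ∨ HasSize (2 * (r * m)) B k) :
    Has (fun v => tC ρ X d (2 * m) N (N - Module.finrank ℚ V) σ v ^ r *
      (χ.character (σ v)⁻¹).re) (-(k : ℝ)) := by
  have hm : 2 * m ≤ 2 * d := by omega
  have hgood := good_of_part hm hV hσ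
  have h1 := tensor_size hm hσ hgood r χ hχ B hB
  have h2 : Tendsto (size (2 * (r * m)) 0 B) (𝓝[>] 0) (𝓝 (-(k : ℝ))) := by
    rcases hk with h | h
    · exact size_of_order h1.1 h
    · exact h
  refine ⟨⟨((N - Module.finrank ℚ V : ℕ) : ℝ) ^ r * 1, fun v => ?_⟩, ?_⟩
  · rw [abs_mul, abs_pow]
    exact mul_le_mul (pow_le_pow_left₀ (abs_nonneg _) (abs_tC _ _ _ _ _ _ _ _) r) (hb v)
      (abs_nonneg _) (by positivity)
  · have h3 := h1.2.add h2
    rw [zero_add] at h3
    refine h3.congr fun ε => ?_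
    rw [sub_add_cancel]
    have e : (fun v => tC ρ X d (2 * m) N (N - Module.finrank ℚ V) σ v ^ r * RR χ 0 σ v) =
        fun v => tC ρ X d (2 * m) N (N - Module.finrank ℚ V) σ v ^ r *
          (χ.character (σ v)⁻¹).re := by
      funext v
      rw [RR_zero]
    rw [e]

/-- the sum of the eigenvalues on the transcendental part -/
theorem tC_eq (hmd : m ≤ d) (hV : IsPart X d m N ρ) {σ : HeightOneSpectrum (𝓞 K) → GK K}
    (hσ : ∀ v, IsFrob v (σ v)) : ∀ᶠ v in cofinite, ∀ β, IsTranscendental X d m N ρ v β →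
    (∀ j, ‖β j‖ = (nm K v : ℝ) ^ m) ∧
      ((tC ρ X d (2 * m) N (N - Module.finrank ℚ V) σ v : ℝ) : ℂ) * ((nm K v : ℕ) : ℂ) ^ m =
        ∑ j, β j := by
  have hm : 2 * m ≤ 2 * d := by omega
  have hgood := good_of_part hm hV hσ
  refine hgood.mono fun v hv β hβ => ?_
  have h1 := tr_facts hm hβ (hσ v)
  refine ⟨h1.1, ?_⟩
  rw [← h1.2]
  congr 2
  unfold tC
  rw [if_pos hv]

open Classical in
/-- **The alternative in rank three.** -/
theorem rankThree (hmd : m ≤ d) (hV : IsPart X d m N ρ) (h3 : N - Module.finrank ℚ V = 3)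
    {χ : Representation ℂ (GK K) (Fin 1 → ℂ)} (hχ : IsArtin χ)
    (hsign : ∀ g, χ.character g = 1 ∨ χ.character g = -1) (hdet : IsDeterminant X d m N ρ χ)
    {w : HeightOneSpectrum (𝓞 K) → ℝ} (hw : IsTwistedTrace X d m N ρ χ w) {k : ℕ → ℤ}
    (hk : ∀ r, 1 ≤ r → ∃ B : HeightOneSpectrum (𝓞 K) → ℂ[X],
      IsTensorSystem X d m N ρ r (if Even r then 1 else χ) B ∧
        (HasOrder (2 * (r * m)) 0 B (k r) ∨ HasSize (2 * (r * m)) B (k r))) (h1 : 0 ≤ k 1) :
    ((∀ r, 1 ≤ r → (k r : ℝ) = -rotationLaw (fun x => x ^ r)) ∧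
      ∀ f : ℝ → ℝ, Continuous f → HasMean (fun v => f (w v)) (rotationLaw f)) ∨
    ((∀ r, 1 ≤ r → (k r : ℝ) = -axisLaw (fun x => x ^ r)) ∧
      ∀ f : ℝ → ℝ, Continuous f → HasMean (fun v => f (w v)) (axisLaw f)) ∨
    ∃ n : ℕ, 1 ≤ n ∧ ∀ δ : ℝ, 0 < δ →
      DensityZero {v | ∀ j : ℤ, δ ≤ |w v - (1 + 2 * Real.cos (2 * Real.pi * j / n))|} := by
  choose σ hσ using exists_isFrob (F := K)
  set T : HeightOneSpectrum (𝓞 K) → ℝ :=
    tC ρ X d (2 * m) N (N - Module.finrank ℚ V) σ with hT
  set δ : HeightOneSpectrum (𝓞 K) → ℝ := fun v => (χ.character (σ v)⁻¹).re with hδ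
  have hδ1 : ∀ v, δ v = 1 ∨ δ v = -1 := by
    intro v
    rcases hsign (σ v)⁻¹ with h | h
    · left
      rw [hδ]
      simp only [h]
      norm_num
    · right
      rw [hδ]
      simp only [h]
      norm_num
  have hδC : ∀ v, χ.character (σ v)⁻¹ = (δ v : ℂ) := by
    intro v
    rcases hsign (σ v)⁻¹ with h | h
    · rw [hδ]
      simp only [h]
      norm_num
    · rw [hδ]
      simp only [h]
      norm_num
  have hδa : ∀ v, |δ v| ≤ 1 := by
    intro v
    rcases hδ1 v with h | h <;> rw [h] <;> norm_num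
  -- the moments
  set M₀ : ℕ → ℤ := fun r => if r = 0 then 1 else -k r with hM₀
  have hmom : ∀ r, Has (fun v => (δ v * T v) ^ r) (M₀ r) := by
    intro r
    by_cases hr : r = 0
    · subst hr
      refine has_one.congr (fun v => by rw [pow_zero]) ?_
      rw [hM₀]
      norm_num
    · obtain ⟨B, hB, hkB⟩ := hk r (by omega)
      have hval : (M₀ r : ℝ) = -(k r : ℝ) := by
        rw [hM₀]
        simp only [if_neg hr]
        push_cast
        rfl
      rw [hval]
      by_cases he : Even r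
      · rw [if_pos he] at hB
        have hone : ∀ v, ((1 : Representation ℂ (GK K) (Fin 1 → ℂ)).character (σ v)⁻¹).re = 1 := by
          intro v
          have := RR_one σ v
          rwa [RR_zero] at this
        refine (has_tensor hmd hV hσ one_artin (fun v => by rw [hone]; norm_num) hB hkB).congr
          (fun v => ?_) rfl
        rw [hone, mul_one, mul_pow]
        have : δ v ^ r = 1 := by
          rcases hδ1 v with h | h
          · rw [h, one_pow]
          · rw [h, he.neg_one_pow]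
        rw [this, one_mul]
      · rw [if_neg he] at hB
        have ho : Odd r := Nat.not_even_iff_odd.1 he
        refine (has_tensor hmd hV hσ hχ hδa hB hkB).congr (fun v => ?_) rfl
        rw [mul_pow]
        have : δ v ^ r = δ v := by
          rcases hδ1 v with h | h
          · rw [h, one_pow]
          · rw [h, ho.neg_one_pow]
        rw [this]
        ring
  -- the bound
  set u : HeightOneSpectrum (𝓞 K) → ℝ := fun v =>
    if |δ v * T v - 1| ≤ 2 then δ v * T v - 1 else 0 with hu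
  have hTv := tC_eq hmd hV hσ
  have hdat : ∀ᶠ v in cofinite, |δ v * T v - 1| ≤ 2 ∧ w v = δ v * T v := by
    filter_upwards [hTv, hdet, hw] with v g1 g2 g3
    obtain ⟨β, hβ, hs⟩ := g3 (σ v) (hσ v)
    obtain ⟨n1, n2⟩ := g1 β hβ
    have n3 := g2 (σ v) (hσ v) β hβ
    have hq : (0 : ℝ) < (nm K v : ℝ) := by exact_mod_cast nm_pos v
    have hqC : ((nm K v : ℕ) : ℂ) ^ m ≠ 0 := pow_ne_zero _ (by
      have : (nm K v : ℝ) ≠ 0 := hq.ne'
      exact_mod_cast this)
    have hnm : ((nm K v : ℕ) : ℂ) = (Ideal.absNorm v.asIdeal : ℂ) := rfl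
    constructor
    · obtain ⟨e⟩ : Nonempty (Fin (N - Module.finrank ℚ V) ≃ Fin 3) := by
        rw [h3]
        exact ⟨Equiv.refl _⟩
      set γ : Fin 3 → ℂ := fun j => β (e.symm j) / ((nm K v : ℕ) : ℂ) ^ m with hγ
      have hγn : ∀ j, ‖γ j‖ = 1 := by
        intro j
        rw [hγ]
        simp only
        rw [norm_div, n1, norm_pow, Complex.norm_natCast, div_self (by positivity)]
      have hsum : γ 0 + γ 1 + γ 2 = ((T v : ℝ) : ℂ) := by
        have e1 : ∑ j, γ j = γ 0 + γ 1 + γ 2 := Fin.sum_univ_three γ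
        rw [← e1, hγ]
        simp only
        rw [← Finset.sum_div, Equiv.sum_comp e.symm β, ← n2, mul_div_assoc, div_self hqC, mul_one]
      have hprod : γ 0 * γ 1 * γ 2 = ((δ v : ℝ) : ℂ) := by
        have e1 : ∏ j, γ j = γ 0 * γ 1 * γ 2 := Fin.prod_univ_three γ
        rw [← e1, hγ]
        simp only
        rw [Finset.prod_div_distrib, Equiv.prod_comp e.symm β, n3, h3, Finset.prod_const,
          Finset.card_univ, Fintype.card_fin, ← pow_mul, hδC v, ← hnm, mul_div_assoc,
          div_self (by rw [pow_mul]; exact pow_ne_zero _ hqC), mul_one]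
      have hre : (γ 0 + γ 1 + γ 2).re = T v := by rw [hsum, Complex.ofReal_re]
      have := three_real (hγn 0) (hγn 1) (hγn 2) (by rw [hsum, Complex.ofReal_im]) (hδ1 v) hprod
      rwa [hre] at this
    · rw [hδC v, ← n2, ← mul_assoc] at hs
      have h5 := mul_right_cancel₀ hqC hs
      exact_mod_cast h5.symm
  have hTr : Tr u (shiftM M₀) := by
    refine ⟨fun v => ?_, fun r => ?_⟩
    · rw [hu]
      simp only
      split_ifs with h
      · exact h
      · norm_num
    · refine has_cofinite (has_shift hmom r) (hdat.mono fun v hv => ?_)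
      rw [hu]
      simp only [if_pos hv.1]
  have hM1 : shiftM M₀ 1 ≤ -1 := by
    unfold shiftM
    rw [Finset.sum_range_succ, Finset.sum_range_one, hM₀]
    simp
    omega
  have hwu : ∀ᶠ v in cofinite, 1 + u v = w v := hdat.mono fun v hv => by
    rw [hu]
    simp only [if_pos hv.1]
    rw [hv.2]
    ring
  have hwT : ∀ᶠ v in cofinite, w v = δ v * T v := hdat.mono fun v hv => hv.2
  -- the conclusion from a law
  have hconc : ∀ (L L' : (ℝ → ℝ) → ℝ), (∀ f, L' f = L fun x => f (1 + x)) →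
      (∀ f : ℝ → ℝ, Continuous f → Has (fun v => f (u v)) (L f)) →
      (∀ r, 1 ≤ r → (k r : ℝ) = -L' (fun x => x ^ r)) ∧
        ∀ f : ℝ → ℝ, Continuous f → HasMean (fun v => f (w v)) (L' f) := by
    intro L L' hLL hL
    have hw' : ∀ f : ℝ → ℝ, Continuous f → Has (fun v => f (w v)) (L' f) := by
      intro f hf
      have h5 := hL (fun x => f (1 + x)) (by fun_prop)
      rw [hLL]
      exact has_cofinite h5 (hwu.mono fun v hv => by rw [hv])
    refine ⟨fun r hr => ?_, fun f hf => hasMean_of_has (hw' f hf)⟩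
    have h5 := hw' (fun x => x ^ r) (by fun_prop)
    have h6 := has_cofinite (hmom r) (ψ := fun v => w v ^ r)
      (hwT.mono fun v hv => by rw [hv])
    have h7 := has_unique h5 h6
    rw [h7, hM₀]
    simp only [if_neg (show r ≠ 0 by omega)]
    push_cast
    ring
  rcases hTr.three hM1 with ⟨n, hn1, hn⟩ | hA | hD
  · right; right
    refine ⟨n, hn1, fun η hη => ?_⟩
    refine hasMean_of_has (has_cofinite (hTr.near hn1 hn hη) (hwu.mono fun v hv => ?_))
    simp only [Set.mem_ofPred_eq, ← hv]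
    have e : ∀ j : ℤ, 1 + u v - (1 + 2 * Real.cos (2 * Real.pi * j / n)) =
        u v - 2 * Real.cos (2 * Real.pi * j / n) := fun j => by ring
    simp only [e]
  · left
    exact hconc law3 rotationLaw (fun f => rfl) hA
  · right; left
    refine hconc law2 axisLaw (fun f => ?_) hD
    unfold axisLaw law2
    norm_num

end Pool.Agent.X303.SC
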