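import Pool.Agent.X303.SC.Cert

/-! The certificates. -/

set_option autoImplicit false

namespace Pool.Agent.X303.SC

/-- a certificate -/
def certA3 : Cert :=
  .node
  (.leaf [1, 1, 0, 0, 1, 1])
  (.node
   (.leaf [1, 1, 1, 0, 1, 1, 1])
   (.leaf [1, 1, 0, -1, 0, 1, 1])
   (.node
    (.node
     (.leaf [1, 1, 0, 1, 1, 0, -1, 0, 1])
     (.leaf [1, 0, -1, 0, 1, 0, -1, 0, 1])
     (.leaf [1, 1, 0, -1, 0, 1, 0, -1, -1]))
    (.leaf [1, 1, 0, 0, 1, 1, 0, -1])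
    (.leaf [1, 1, 1, 1, 1, 0, -1, -1])))
  (.node
   (.leaf [1, 0, 0, -1, 0, 0, 1])
   (.node
    (.node
     (.leaf [1, 1, 1, 1, 1, -1, -1, 0, 1])
     (.leaf [1, 1, 1, 0, 0, -1, 0, 1, 1])
     (.leaf [1, 1, 0, -1, -1, -1, 0, 1, 1]))
    (.leaf [1, 1, 1, 0, 0, -1, -1, -1])
    (.leaf [1, 1, 1, 1, 1, 0, -1, -1]))
   (.leaf [1, 1, 1, 1, 0, -1, -1]))

theorem checkA3 : check [2, -1, 0, 1, -1] certA3 = true := by
  decide +kernel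

/-- a certificate -/
def certA4 : Cert :=
  .node
  (.leaf [1, 1, 0, 0, 0, 1, 1])
  (.node
   (.leaf [1, 1, 1, 0, 0, 1, 1, 1])
   (.leaf [1, 1, 0, -1, -1, 0, 1, 1])
   (.node
    (.leaf [1, 0, 0, 0, -1, 0, 0, 0, 1])
    (.leaf [1, 1, 0, 0, 0, 0, 0, -1, -1])
    (.leaf [1, 1, 1, 1, 1, 1, 0, -1, -1])))
  (.leaf [1, 1, 1, 0, -1, -1, -1])

theorem checkA4 : check [2, -1, 0, 0, 1, -1] certA4 = true := by
  decide +kernel

/-- a certificate -/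
def certA5 : Cert :=
  .node
  (.leaf [1, 1, 0, 0, 0, 0, 1, 1])
  (.node
   (.leaf [1, 1, 1, 0, 0, 0, 1, 1, 1])
   (.leaf [1, 1, 0, -1, -1, -1, 0, 1, 1])
   (.leaf [1, 1, 1, 1, 0, -1, -1, -1, -1]))
  (.leaf [1, 1, 1, 1, 0, -1, -1, -1])

theorem checkA5 : check [2, -1, 0, 0, 0, 1, -1] certA5 = true := by
  decide +kernel

/-- a certificate -/
def certA6 : Cert :=
  .node
  (.leaf [1, 1, 0, 0, 0, 0, 0, 1, 1])
  (.leaf [1, 2, 2, 1, 0, -1, -2, -2, -1])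
  (.leaf [1, 1, 1, 1, 1, 0, -1, -1, -1])

theorem checkA6 : check [2, -1, 0, 0, 0, 0, 1, -1] certA6 = true := by
  decide +kernel

/-- a certificate -/
def certD3 : Cert :=
  .node
  (.leaf [1, 0, -1, 0, 1])
  (.node
   (.node
    (.node
     (.node
      (.leaf [1, -1, 0, 1, -1, 1, 0, -1, 1])
      (.leaf [1, 0, -1, 0, 0, 0, 1, 0, -1])
      (.leaf [1, 1, 0, -1, 0, 0, 1, 1, -1]))
     (.leaf [1, 0, 0, 0, -1, 1, 1, -1])
     (.leaf [1, 1, -1, 0, 0, 1, 1, -1]))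
    (.leaf [1, -1, 0, 0, 0, 1, -1])
    (.leaf [1, 0, 0, 0, 0, 1, -1]))
   (.node
    (.leaf [1, 0, -1, 1, 0, -1, 1])
    (.node
     (.leaf [1, 0, -1, 1, 1, -1, 0, 1])
     (.node
      (.leaf [1, 0, -1, 0, 1, 0, -1, 0, 1])
      (.leaf [1, -1, -1, 2, 0, -2, 1, 1, -1])
      (.leaf [1, 0, -1, 1, 1, -1, 0, 1, -1]))
     (.leaf [1, -1, 0, 1, -1, 0, 1, -1]))
    (.leaf [1, 0, -1, 0, 1, 0, -1]))
   (.leaf [1, 0, -1, 1, 1, -1]))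
  (.leaf [1, -1, 0, 1, -1])

theorem checkD3 : check [2, 1, 1, 0] certD3 = true := by
  decide +kernel

/-- a certificate -/
def certD4 : Cert :=
  .node
  (.leaf [1, 1, -1, -1, 0, 1])
  (.node
   (.leaf [1, 0, 0, -1, 0, 0, 1])
   (.node
    (.node
     (.leaf [1, 0, -1, 0, 1, 0, -1, 0, 1])
     (.leaf [1, -1, 0, 0, 0, 0, 0, 1, -1])
     (.leaf [1, 0, 1, -1, -1, 0, 1, 1, -1]))
    (.leaf [1, 0, -1, -1, 1, 1, 0, -1])
    (.leaf [1, 1, -1, -1, 1, 1, 0, -1]))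
   (.leaf [1, 0, -1, 0, 1, 1, -1]))
  (.leaf [1, -1, 0, 0, 1, -1])

theorem checkD4 : check [2, 1, 1, 1, 0] certD4 = true := by
  decide +kernel

/-- a certificate -/
def certD5 : Cert :=
  .node
  (.leaf [1, 1, 0, -1, -1, 0, 1])
  (.node
   (.leaf [1, 1, 0, -1, -1, 0, 1, 1])
   (.node
    (.leaf [1, 0, 0, 0, -1, 0, 0, 0, 1])
    (.leaf [1, 0, -1, -1, 0, 1, 1, 0, -1])
    (.leaf [1, 1, 0, -1, -1, 0, 1, 1, -1]))
   (.leaf [1, 0, -1, 0, 0, 1, 1, -1]))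
  (.leaf [1, -1, 0, 0, 0, 1, -1])

theorem checkD5 : check [2, 1, 1, 1, 1, 0] certD5 = true := by
  decide +kernel

/-- a certificate -/
def certD6 : Cert :=
  .node
  (.leaf [1, 1, 0, 0, -1, -1, 0, 1])
  (.node
   (.leaf [1, 1, 1, -1, -1, -1, 0, 1, 1])
   (.leaf [1, 1, 0, -1, -1, -1, 0, 1, 1])
   (.leaf [1, 0, -1, 0, 0, 0, 1, 1, -1]))
  (.leaf [1, -1, 0, 0, 0, 0, 1, -1])

theorem checkD6 : check [2, 1, 1, 1, 1, 1, 0] certD6 = true := by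
  decide +kernel

end Pool.Agent.X303.SC
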