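import Pool.Agent.X303.SC.Ade

/-! Sequences with `c 2 = -1`: the odd terms; degenerate sequences are periodic. -/

set_option autoImplicit false

namespace Pool.Agent.X303.SC

open Polynomial

/-- the sum of the even monomials -/
noncomputable def ev (M : ℕ) : ℤ[X] := ∑ k ∈ Finset.range M, monomial (2 * k) 1

theorem ev_sq {c : ℕ → ℤ} (h0 : c 0 = 2) (h2 : c 2 = -1) (hA : ∀ k, 2 ≤ k → c (2 * k) = 0)
    (M : ℕ) : bil c (ev (M + 1)) (ev (M + 1)) = 2 := by
  induction M with
  | zero =>
    unfold ev
    rw [Finset.sum_range_one, bil_mono]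
    have : df (2 * 0) (2 * 0) = 0 := rfl
    rw [this, h0]
    norm_num
  | succ M ih =>
    have e : ev (M + 1 + 1) = ev (M + 1) + monomial (2 * (M + 1)) 1 := by
      unfold ev
      rw [Finset.sum_range_succ]
    rw [e, bil_add_sq, ih, bil_mono]
    have h1 : bil c (ev (M + 1)) (monomial (2 * (M + 1)) 1) = -1 := by
      unfold ev
      rw [bil_sum_left, Finset.sum_range_succ, Finset.sum_eq_zero]
      · rw [bil_mono]
        have : df (2 * M) (2 * (M + 1)) = 2 := by unfold df; omega
        rw [this, h2]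
        norm_num
      · intro k hk
        have hk' := Finset.mem_range.1 hk
        rw [bil_mono]
        have : df (2 * k) (2 * (M + 1)) = 2 * (M + 1 - k) := by unfold df; omega
        rw [this, hA _ (by omega), mul_zero]
    rw [h1]
    have : df (2 * (M + 1)) (2 * (M + 1)) = 0 := by unfold df; omega
    rw [this, h0]
    norm_num

theorem lt_one_of {c : ℕ → ℤ} (h : Pos c) (h0 : c 0 = 2) {R : ℤ[X]} (hR : bil c R R = 2) {j : ℕ}
    (hj : R.coeff j = 0) {x : ℤ} (hx : bil c (monomial j 1) R = 2 * x) : x = 0 := by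
  have hjj : df j j = 0 := by unfold df; omega
  have n1 : (monomial j 1 - R : ℤ[X]) ≠ 0 := by
    intro h1
    have h2 := congrArg (fun P : ℤ[X] => P.coeff j) h1
    simp only [coeff_sub, coeff_monomial, coeff_zero, if_true, hj] at h2
    norm_num at h2
  have n2 : (monomial j 1 + R : ℤ[X]) ≠ 0 := by
    intro h1
    have h2 := congrArg (fun P : ℤ[X] => P.coeff j) h1
    simp only [coeff_add, coeff_monomial, coeff_zero, if_true, hj] at h2
    norm_num at h2
  have p1 := h _ n1
  have p2 := h _ n2
  rw [bil_sub_sq, bil_mono, hjj, h0, hR, hx] at p1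
  rw [bil_add_sq, bil_mono, hjj, h0, hR, hx] at p2
  omega

theorem odd_A {c : ℕ → ℤ} (h : Pos c) (h0 : c 0 = 2) (h2 : c 2 = -1)
    (hA : ∀ k, 2 ≤ k → c (2 * k) = 0) : ∀ m, c (2 * m + 1) = 0 := by
  intro m
  induction m using Nat.strong_induction_on with
  | _ m ih =>
  refine lt_one_of h h0 (ev_sq h0 h2 hA (2 * m + 1)) (j := 2 * m + 1) ?_ ?_
  · unfold ev
    rw [finsetSum_coeff]
    refine Finset.sum_eq_zero fun k _ => ?_
    rw [coeff_monomial, if_neg (by omega)]
  · unfold ev
    rw [bil_sum_right, show 2 * m + 1 + 1 = (m + 1) + (m + 1) by ring, Finset.sum_range_add,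
      Finset.sum_range_succ', Finset.sum_range_succ]
    have e1 : ∑ k ∈ Finset.range m, bil c (monomial (2 * m + 1) 1) (monomial (2 * (k + 1)) 1) = 0 := by
      refine Finset.sum_eq_zero fun k hk => ?_
      have hk' := Finset.mem_range.1 hk
      rw [bil_mono]
      have : df (2 * m + 1) (2 * (k + 1)) = 2 * (m - (k + 1)) + 1 := by unfold df; omega
      rw [this, ih _ (by omega), mul_zero]
    have e2 : ∑ k ∈ Finset.range m,
        bil c (monomial (2 * m + 1) 1) (monomial (2 * (m + 1 + k)) 1) = 0 := by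
      refine Finset.sum_eq_zero fun k hk => ?_
      have hk' := Finset.mem_range.1 hk
      rw [bil_mono]
      have : df (2 * m + 1) (2 * (m + 1 + k)) = 2 * k + 1 := by unfold df; omega
      rw [this, ih _ (by omega), mul_zero]
    rw [e1, e2, bil_mono, bil_mono]
    have f1 : df (2 * m + 1) (2 * 0) = 2 * m + 1 := by unfold df; omega
    have f2 : df (2 * m + 1) (2 * (m + 1 + m)) = 2 * m + 1 := by unfold df; omega
    rw [f1, f2]
    ring

theorem odd_D {c : ℕ → ℤ} (h : Pos c) (h0 : c 0 = 2) (hD : ∀ k, 1 ≤ k → c (2 * k) = (-1) ^ k) :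
    ∀ m, c (2 * m + 1) = 0 := by
  intro m
  refine lt_one_of h h0 (R := monomial 0 1 + monomial (4 * m + 2) 1) ?_ (j := 2 * m + 1) ?_ ?_
  · rw [bil_add_sq, bil_mono, bil_mono, bil_mono]
    have f1 : df 0 0 = 0 := rfl
    have f2 : df 0 (4 * m + 2) = 2 * (2 * m + 1) := by unfold df; omega
    have f3 : df (4 * m + 2) (4 * m + 2) = 0 := by unfold df; omega
    rw [f1, f2, f3, h0, hD _ (by omega), pow_add, pow_mul]
    norm_num
  · rw [coeff_add, coeff_monomial, coeff_monomial, if_neg (by omega), if_neg (by omega), add_zero]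
  · rw [bil_add_right, bil_mono, bil_mono]
    have f1 : df (2 * m + 1) 0 = 2 * m + 1 := by unfold df; omega
    have f2 : df (2 * m + 1) (4 * m + 2) = 2 * m + 1 := by unfold df; omega
    rw [f1, f2]
    ring

/-- **The alternative for `c 2 = -1`.** -/
theorem rank_two {c : ℕ → ℤ} (h : Pos c) (h0 : c 0 = 2) (h2 : c 2 = -1) :
    (∀ m, c (2 * m + 1) = 0) ∧
      ((∀ k, 2 ≤ k → c (2 * k) = 0) ∨ ∀ k, 1 ≤ k → c (2 * k) = (-1) ^ k) := by
  have h' := pos_mul h (m := 2) (by norm_num)
  have e : (fun k => c (k * 2)) = fun k => c (2 * k) := funext fun k => by rw [mul_comm]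
  rw [e] at h'
  rcases alternative h' h0 h2 with hA | hD
  · exact ⟨odd_A h h0 h2 hA, Or.inl hA⟩
  · exact ⟨odd_D h h0 hD, Or.inr hD⟩

/-! ### Degenerate sequences -/

theorem cauchy {c : ℕ → ℤ} (hp : ∀ P, 0 ≤ bil c P P) {P : ℤ[X]} (h : bil c P P = 0) (R : ℤ[X]) :
    bil c P R = 0 := by
  have hC : ∀ (a : ℤ) (S : ℤ[X]), bil c (C a * P) S = a * bil c P S := by
    intro a S
    have h1 : ∀ P S, a * bil c P S = bil c (C a * P) S := by
      intro P S
      induction P using Polynomial.induction_on' with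
      | add p q hp hq => rw [mul_add, bil_add_left, bil_add_left, mul_add, hp, hq]
      | monomial i x =>
        induction S using Polynomial.induction_on' with
        | add p q hp hq => rw [bil_add_right, bil_add_right, mul_add, hp, hq]
        | monomial j y =>
          rw [C_mul_monomial, bil_mono, bil_mono]
          ring
    exact (h1 P S).symm
  have key : ∀ a : ℤ, 0 ≤ 2 * (a * bil c P R) + bil c R R := by
    intro a
    have h1 := hp (C a * P + R)
    rw [bil_add_sq, hC, bil_symm c P (C a * P), hC, h] at h1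
    have h2 : a * (a * (0 : ℤ)) + 2 * bil c (C a * P) R + bil c R R =
        2 * bil c (C a * P) R + bil c R R := by ring
    rw [hC] at h1
    have h3 : bil c (C a * P) R = a * bil c P R := hC a R
    linarith
  by_contra hne
  have hR : 0 ≤ bil c R R := hp R
  rcases lt_or_gt_of_ne hne with hlt | hgt
  · have := key (bil c R R + 1)
    nlinarith
  · have := key (-(bil c R R + 1))
    nlinarith

theorem shift (c : ℕ → ℤ) (m : ℕ) (P R : ℤ[X]) :
    bil c (X ^ m * P) (X ^ m * R) = bil c P R := by
  refine bil_ext c (B := fun P R => bil c (X ^ m * P) (X ^ m * R)) (fun P P' R => ?_)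
    (fun P R R' => ?_) (fun i j a b => ?_) P R
  · simp only [mul_add, bil_add_left]
  · simp only [mul_add, bil_add_right]
  · simp only [X_pow_mul_monomial, bil_mono]
    rw [show df (i + m) (j + m) = df i j by unfold df; omega]

theorem exists_trailing {c : ℕ → ℤ} : ∀ (n : ℕ) (P : ℤ[X]), P.natDegree ≤ n → P ≠ 0 →
    bil c P P = 0 → ∃ Q : ℤ[X], Q.coeff 0 ≠ 0 ∧ bil c Q Q = 0 := by
  intro n
  induction n with
  | zero =>
    intro P hn hP h
    refine ⟨P, fun h0 => hP ?_, h⟩
    rw [eq_C_of_natDegree_le_zero hn, h0, C_0]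
  | succ n ih =>
    intro P hn hP h
    by_cases h0 : P.coeff 0 = 0
    · have e : X * P.divX = P := by
        have := X_mul_divX_add P
        rwa [h0, C_0, add_zero] at this
      refine ih P.divX ?_ (fun h1 => hP ?_) ?_
      · rw [natDegree_divX_eq_natDegree_tsub_one]
        omega
      · rw [← e, h1, mul_zero]
      · have := shift c 1 P.divX P.divX
        rwa [pow_one, e, h, eq_comm] at this
    · exact ⟨P, h0, h⟩

/-- a nonnegative form that is not positive comes from a periodic sequence -/
theorem degenerate {c : ℕ → ℤ} (hp : ∀ P, 0 ≤ bil c P P) (h0 : c 0 = 2) (hn : ¬ Pos c) :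
    ∃ n, 1 ≤ n ∧ c n = 2 := by
  classical
  obtain ⟨P₀, hP₀, hb₀⟩ : ∃ P : ℤ[X], P ≠ 0 ∧ bil c P P = 0 := by
    unfold Pos at hn
    push Not at hn
    obtain ⟨P, h1, h2⟩ := hn
    exact ⟨P, h1, le_antisymm h2 (hp P)⟩
  obtain ⟨P, hP, hb⟩ := exists_trailing P₀.natDegree P₀ le_rfl hP₀ hb₀
  -- bounds
  have hbd : ∀ k, -2 ≤ c k ∧ c k ≤ 2 := by
    intro k
    rcases Nat.eq_zero_or_pos k with rfl | hk
    · rw [h0]; norm_num
    · have hd : df 0 k = k := by unfold df; omega
      have h00 : df 0 0 = 0 := rfl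
      have hkk : df k k = 0 := by unfold df; omega
      have p1 := hp (monomial 0 1 + monomial k 1)
      have p2 := hp (monomial 0 1 - monomial k 1)
      rw [bil_add_sq, bil_mono, bil_mono, bil_mono, hd, h00, hkk, h0] at p1
      rw [bil_sub_sq, bil_mono, bil_mono, bil_mono, hd, h00, hkk, h0] at p2
      omega
  -- the recurrence
  set e : ℤ → ℤ := fun n => c n.natAbs with he
  have hrec : ∀ k : ℤ, ∑ i ∈ Finset.range (P.natDegree + 1), P.coeff i * e (k + i) = 0 := by
    intro k
    have h1 : ∀ m j : ℕ, bil c (X ^ m * P) (monomial j 1) =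
        ∑ i ∈ Finset.range (P.natDegree + 1), P.coeff i * e ((m : ℤ) - j + i) := by
      intro m j
      conv_lhs => rw [P.as_sum_range]
      rw [Finset.mul_sum, bil_sum_left]
      refine Finset.sum_congr rfl fun i _ => ?_
      rw [X_pow_mul_monomial, bil_mono, he]
      simp only
      rw [mul_one]
      congr 2
      unfold df
      omega
    have h2 : ∀ m j : ℕ, bil c (X ^ m * P) (monomial j 1) = 0 := fun m j =>
      cauchy hp (by rw [shift, hb]) _
    rcases le_total 0 k with hk | hk
    · obtain ⟨m, rfl⟩ := Int.eq_ofNat_of_zero_le hk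
      rw [← h2 m 0, h1]
      simp
    · obtain ⟨m, hm⟩ := Int.eq_ofNat_of_zero_le (show 0 ≤ -k by omega)
      rw [← h2 0 m, h1]
      refine Finset.sum_congr rfl fun i _ => ?_
      congr 2
      push_cast
      omega
  set d := P.natDegree with hd
  -- windows
  let W : ℕ → (Fin d → Set.Icc (-2 : ℤ) 2) := fun a i => ⟨c (a + i), hbd _⟩
  obtain ⟨a, b, hab, hW⟩ := Finite.exists_ne_map_eq_of_infinite W
  have main : ∀ a b : ℕ, a < b → W a = W b → ∃ n, 1 ≤ n ∧ c n = 2 := by
    intro a b hab hW
    have hwin : ∀ j : ℕ, ∀ i : ℕ, i < d + j → e ((a : ℤ) - j + i) = e ((b : ℤ) - j + i) := by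
      intro j
      induction j with
      | zero =>
        intro i hi
        have h1 := congrArg (fun w => ((w ⟨i, by omega⟩ : Set.Icc (-2 : ℤ) 2) : ℤ)) hW
        simp only [W] at h1
        rw [he]
        simp only
        have e1 : ((a : ℤ) - ((0 : ℕ) : ℤ) + (i : ℤ)).natAbs = a + i := by omega
        have e2 : ((b : ℤ) - ((0 : ℕ) : ℤ) + (i : ℤ)).natAbs = b + i := by omega
        rw [e1, e2]
        exact h1
      | succ j ih =>
        intro i hi
        rcases Nat.eq_zero_or_pos i with rfl | hi0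
        · have r1 := hrec ((a : ℤ) - (j + 1))
          have r2 := hrec ((b : ℤ) - (j + 1))
          rw [Finset.sum_range_succ'] at r1 r2
          have h3 : ∑ k ∈ Finset.range d, P.coeff (k + 1) * e ((a : ℤ) - (j + 1) + (k + 1 : ℕ)) =
              ∑ k ∈ Finset.range d, P.coeff (k + 1) * e ((b : ℤ) - (j + 1) + (k + 1 : ℕ)) := by
            refine Finset.sum_congr rfl fun k hk => ?_
            have hk' := Finset.mem_range.1 hk
            have := ih k (by omega)
            have e1 : (a : ℤ) - (j + 1) + (k + 1 : ℕ) = (a : ℤ) - j + k := by push_cast; ring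
            have e2 : (b : ℤ) - (j + 1) + (k + 1 : ℕ) = (b : ℤ) - j + k := by push_cast; ring
            rw [e1, e2, this]
          rw [h3] at r1
          have h4 : P.coeff 0 * e ((a : ℤ) - (j + 1) + (0 : ℕ)) =
              P.coeff 0 * e ((b : ℤ) - (j + 1) + (0 : ℕ)) := by linarith
          have h5 := mul_left_cancel₀ hP h4
          push_cast
          push_cast at h5
          exact h5
        · obtain ⟨k, rfl⟩ : ∃ k, i = k + 1 := ⟨i - 1, by omega⟩
          have := ih k (by omega)
          have e1 : (a : ℤ) - (j + 1 : ℕ) + (k + 1 : ℕ) = (a : ℤ) - j + k := by push_cast; ring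
          have e2 : (b : ℤ) - (j + 1 : ℕ) + (k + 1 : ℕ) = (b : ℤ) - j + k := by push_cast; ring
          rw [e1, e2, this]
    refine ⟨b - a, by omega, ?_⟩
    rcases Nat.eq_zero_or_pos (d + a) with hda | hda
    · -- degree zero
      exfalso
      have hd0 : d = 0 := by omega
      have := hrec 0
      rw [hd0, Finset.sum_range_one] at this
      have e0 : e (0 + ((0 : ℕ) : ℤ)) = 2 := by
        rw [he]
        simpa using h0
      rw [e0] at this
      omega
    · have := hwin a 0 (by omega)
      have e1 : e ((a : ℤ) - a + ((0 : ℕ) : ℤ)) = 2 := by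
        rw [he]
        simpa using h0
      have e2 : e ((b : ℤ) - a + ((0 : ℕ) : ℤ)) = c (b - a) := by
        rw [he]
        simp only
        congr 1
        omega
      rw [← e2, ← this, e1]
  rcases lt_or_gt_of_ne hab with h | h
  · exact main a b h hW
  · exact main b a h hW.symm

end Pool.Agent.X303.SC
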